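import Mathlib

/-!
Abstract part: a subgroup `H` of `Perm X` which contains all rigid swaps of two directions at one
node.  `dir x` is the direction of the point `x` at the node.
-/

namespace Pool.Agent.MP_6aa20f_lc

open Finset

lemma perm_apply_inv {X : Type*} (e : Equiv.Perm X) (x : X) : e (e⁻¹ x) = x :=
  e.apply_symm_apply x

lemma perm_inv_apply {X : Type*} (e : Equiv.Perm X) (x : X) : e⁻¹ (e x) = x :=
  e.symm_apply_apply x

section Abstract

variable {X D : Type*}

/-- `H` contains, for any two points in different directions, an element exchanging them and fixing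
every point in any other direction. -/
def HasSwaps (dir : X → D) (H : Subgroup (Equiv.Perm X)) : Prop :=
  ∀ x y, dir x ≠ dir y → ∃ g ∈ H, g x = y ∧ g y = x ∧
    ∀ z, dir z ≠ dir x → dir z ≠ dir y → g z = z

/-- `S` can be moved by `H` to a set of points in pairwise different directions. -/
def Good (dir : X → D) (H : Subgroup (Equiv.Perm X)) (S : Set X) : Prop :=
  ∃ h ∈ H, Set.InjOn (fun x => dir (h x)) S

/-- `S` is a star whose directions avoid those of `Z`. -/
def Fresh (dir : X → D) (S Z : Set X) : Prop :=
  Set.InjOn dir S ∧ ∀ s ∈ S, ∀ z ∈ Z, dir s ≠ dir z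

/-- `Z` together with any (finite) fresh star is good. -/
def OGood (dir : X → D) (H : Subgroup (Equiv.Perm X)) (Z : Set X) : Prop :=
  ∀ S : Finset X, Fresh dir (S : Set X) Z → Good dir H (Z ∪ S)

variable {dir : X → D} {H : Subgroup (Equiv.Perm X)}

lemma Good.mono {S T : Set X} (h : Good dir H T) (hST : S ⊆ T) : Good dir H S := by
  obtain ⟨g, hg, hinj⟩ := h
  exact ⟨g, hg, hinj.mono hST⟩

lemma good_of_injOn {S : Set X} (h : Set.InjOn dir S) : Good dir H S :=
  ⟨1, H.one_mem, by simpa using h⟩

lemma Good.of_image {S : Set X} {g : Equiv.Perm X} (hg : g ∈ H) (h : Good dir H (g '' S)) :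
    Good dir H S := by
  obtain ⟨k, hk, hinj⟩ := h
  refine ⟨k * g, H.mul_mem hk hg, ?_⟩
  intro x hx y hy hxy
  have := hinj (Set.mem_image_of_mem g hx) (Set.mem_image_of_mem g hy) (by simpa using hxy)
  exact g.injective this

lemma Good.image {S : Set X} {g : Equiv.Perm X} (hg : g ∈ H) (h : Good dir H S) :
    Good dir H (g '' S) := by
  apply Good.of_image (g := g⁻¹) (H.inv_mem hg)
  have : (g⁻¹ : Equiv.Perm X) '' (g '' S) = S := by
    rw [← Set.image_comp]; simp
  rwa [this]

lemma good_image_iff {S : Set X} {g : Equiv.Perm X} (hg : g ∈ H) :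
    Good dir H (g '' S) ↔ Good dir H S := ⟨Good.of_image hg, Good.image hg⟩

/-- Simultaneous moving, disjoint case. -/
lemma transfer_aux (hsw : HasSwaps dir H) {ι : Type*} (A : Finset ι) (s s' : ι → X) :
    ∀ (E : Set D), Set.InjOn (fun a => dir (s a)) (A : Set ι) →
      Set.InjOn (fun a => dir (s' a)) (A : Set ι) →
      (∀ a ∈ A, dir (s a) ∉ E) → (∀ a ∈ A, dir (s' a) ∉ E) →
      (∀ a ∈ A, ∀ b ∈ A, dir (s a) ≠ dir (s' b)) →
      ∃ k ∈ H, (∀ a ∈ A, k (s a) = s' a) ∧ ∀ z, dir z ∈ E → k z = z := by
  classical
  induction A using Finset.induction_on with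
  | empty => intro E _ _ _ _ _; exact ⟨1, H.one_mem, by simp, by simp⟩
  | insert a A ha ih =>
    intro E hs hs' hsE hs'E hdisj
    obtain ⟨k, hk, hk1, hk2⟩ := ih (E ∪ {dir (s a), dir (s' a)})
      (hs.mono (by simp)) (hs'.mono (by simp))
      (by
        intro b hb
        have hba : b ≠ a := by rintro rfl; exact ha hb
        simp only [Set.mem_union, Set.mem_insert_iff, Set.mem_singleton_iff, not_or]
        refine ⟨hsE b (by simp [hb]), ?_, hdisj b (by simp [hb]) a (by simp)⟩
        intro h; exact hba (hs (by simp [hb]) (by simp) h))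
      (by
        intro b hb
        have hba : b ≠ a := by rintro rfl; exact ha hb
        simp only [Set.mem_union, Set.mem_insert_iff, Set.mem_singleton_iff, not_or]
        refine ⟨hs'E b (by simp [hb]), fun h => hdisj a (by simp) b (by simp [hb]) h.symm, ?_⟩
        intro h; exact hba (hs' (by simp [hb]) (by simp) h))
      (by intro b hb c hc; exact hdisj b (by simp [hb]) c (by simp [hc]))
    obtain ⟨g, hg, hg1, hg2, hg3⟩ := hsw (s a) (s' a) (hdisj a (by simp) a (by simp))
    refine ⟨g * k, H.mul_mem hg hk, ?_, ?_⟩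
    · intro b hb
      rw [Finset.mem_insert] at hb
      rcases hb with rfl | hb
      · rw [Equiv.Perm.mul_apply, hk2 (s b) (by simp), hg1]
      · have hba : b ≠ a := by rintro rfl; exact ha hb
        rw [Equiv.Perm.mul_apply, hk1 b hb]
        apply hg3
        · exact fun h => hdisj a (by simp) b (by simp [hb]) h.symm
        · intro h; exact hba (hs' (by simp [hb]) (by simp) h)
    · intro z hz
      rw [Equiv.Perm.mul_apply, hk2 z (by simp [hz])]
      apply hg3
      · intro h; exact hsE a (by simp) (h ▸ hz)
      · intro h; exact hs'E a (by simp) (h ▸ hz)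

/-- Existence of fresh stars indexed by a finset, avoiding a finite set of directions. -/
lemma exists_fresh_family [Infinite D] (hsurj : Function.Surjective dir) {ι : Type*}
    (A : Finset ι) {F : Set D} (hF : F.Finite) :
    ∃ s : ι → X, Set.InjOn (fun a => dir (s a)) (A : Set ι) ∧ ∀ a ∈ A, dir (s a) ∉ F := by
  classical
  have hinf : (Fᶜ).Infinite := hF.infinite_compl
  let emb := hinf.natEmbedding
  have hne : Nonempty X := by
    obtain ⟨d⟩ : Nonempty D := inferInstance
    exact ⟨(hsurj d).choose⟩
  refine ⟨fun a => if h : a ∈ A then Function.surjInv hsurj (emb (A.equivFin ⟨a, h⟩) : D)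
    else hne.some, ?_, ?_⟩
  · intro a ha b hb hab
    rw [Finset.mem_coe] at ha hb
    simp only [ha, hb, dif_pos, Function.surjInv_eq] at hab
    have h1 := emb.injective (Subtype.ext hab)
    have h2 := A.equivFin.injective (Fin.ext h1)
    exact congrArg Subtype.val h2
  · intro a ha
    simp only [ha, dif_pos, Function.surjInv_eq]
    exact (emb (A.equivFin ⟨a, ha⟩)).2

/-- Simultaneous moving of a star to a star, fixing all points in finitely many given directions. -/
lemma transfer [Infinite D] (hsurj : Function.Surjective dir) (hsw : HasSwaps dir H)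
    {ι : Type*} (A : Finset ι) (s s' : ι → X) {E : Set D} (hE : E.Finite)
    (hs : Set.InjOn (fun a => dir (s a)) (A : Set ι))
    (hs' : Set.InjOn (fun a => dir (s' a)) (A : Set ι))
    (hsE : ∀ a ∈ A, dir (s a) ∉ E) (hs'E : ∀ a ∈ A, dir (s' a) ∉ E) :
    ∃ k ∈ H, (∀ a ∈ A, k (s a) = s' a) ∧ ∀ z, dir z ∈ E → k z = z := by
  classical
  have hF : (E ∪ ((A.image (fun a => dir (s a)) : Finset D) : Set D) ∪
      ((A.image (fun a => dir (s' a)) : Finset D) : Set D)).Finite :=
    (hE.union (Finset.finite_toSet _)).union (Finset.finite_toSet _)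
  obtain ⟨t, ht1, ht2⟩ := exists_fresh_family (dir := dir) hsurj A hF
  have key : ∀ a ∈ A, dir (t a) ∉ E ∧ (∀ b ∈ A, dir (s b) ≠ dir (t a)) ∧
      (∀ b ∈ A, dir (s' b) ≠ dir (t a)) := by
    intro a ha
    have h := ht2 a ha
    simp only [Finset.coe_image, Set.mem_union, not_or, Set.mem_image, not_exists, not_and,
      Finset.mem_coe] at h
    exact ⟨h.1.1, h.1.2, h.2⟩
  obtain ⟨k1, hk1, h11, h12⟩ := transfer_aux hsw A s t E hs ht1 hsE (fun a ha => (key a ha).1)
    (fun a ha b hb => (key b hb).2.1 a ha)
  obtain ⟨k2, hk2, h21, h22⟩ := transfer_aux hsw A t s' E ht1 hs' (fun a ha => (key a ha).1) hs'E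
    (fun a ha b hb => ((key a ha).2.2 b hb).symm)
  refine ⟨k2 * k1, H.mul_mem hk2 hk1, ?_, ?_⟩
  · intro a ha
    rw [Equiv.Perm.mul_apply, h11 a ha, h21 a ha]
  · intro z hz
    rw [Equiv.Perm.mul_apply, h12 z hz, h22 z hz]

/-- Goodness with a fresh star only depends on the size of the star (monotonically). -/
lemma good_transfer [Infinite D] (hsurj : Function.Surjective dir) (hsw : HasSwaps dir H)
    {Z : Set X} (hZ : Z.Finite) {S S' : Finset X} (hS : Fresh dir (S : Set X) Z)
    (hS' : Fresh dir (S' : Set X) Z) (hcard : S.card ≤ S'.card)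
    (hgood : Good dir H (Z ∪ S')) : Good dir H (Z ∪ S) := by
  classical
  obtain ⟨T, hTS, hTcard⟩ := Finset.exists_subset_card_eq hcard
  let e : S ≃ T := Finset.equivOfCardEq hTcard.symm
  let j : X → X := fun x => if h : x ∈ S then (e ⟨x, h⟩ : X) else x
  have hjT : ∀ a ∈ S, j a ∈ T := by
    intro a ha; simp only [j, ha, dif_pos]; exact (e ⟨a, ha⟩).2
  have hjinj : Set.InjOn j (S : Set X) := by
    intro a ha b hb hab
    rw [Finset.mem_coe] at ha hb
    simp only [j, ha, hb, dif_pos] at hab
    have := e.injective (Subtype.ext hab)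
    exact congrArg Subtype.val this
  obtain ⟨k, hk, hk1, hk2⟩ := transfer hsurj hsw S (fun x => x) j (E := dir '' Z) (hZ.image _)
    hS.1
    (by
      intro a ha b hb hab
      apply hjinj ha hb
      exact hS'.1 (hTS (hjT a ha)) (hTS (hjT b hb)) hab)
    (by rintro a ha ⟨z, hz, hza⟩; exact hS.2 a ha z hz hza.symm)
    (by rintro a ha ⟨z, hz, hza⟩; exact hS'.2 (j a) (hTS (hjT a ha)) z hz hza.symm)
  apply Good.of_image hk
  apply hgood.mono
  rintro _ ⟨x, hx, rfl⟩
  rcases hx with hx | hx
  · left; rw [hk2 x ⟨x, hx, rfl⟩]; exact hx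
  · right
    rw [hk1 x hx]; exact hTS (hjT x hx)

lemma ogood_of_arbitrarily_large [Infinite D] (hsurj : Function.Surjective dir)
    (hsw : HasSwaps dir H) {Z : Set X} (hZ : Z.Finite)
    (h : ∀ n : ℕ, ∃ S : Finset X, n ≤ S.card ∧ Fresh dir (S : Set X) Z ∧ Good dir H (Z ∪ S)) :
    OGood dir H Z := by
  intro S hS
  obtain ⟨S', hn, hS', hgood⟩ := h S.card
  exact good_transfer hsurj hsw hZ hS hS' hn hgood

lemma ogood_of_injOn {Z : Set X} (hZ : Set.InjOn dir Z) : OGood dir H Z := by
  intro S hS
  apply good_of_injOn
  intro x hx y hy hxy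
  rcases hx with hx | hx <;> rcases hy with hy | hy
  · exact hZ hx hy hxy
  · exact absurd hxy.symm (hS.2 y hy x hx)
  · exact absurd hxy (hS.2 x hx y hy)
  · exact hS.1 hx hy hxy

lemma ogood_pair_of_ne {u v : X} (h : dir u ≠ dir v) : OGood dir H ({u, v} : Set X) := by
  apply ogood_of_injOn
  intro x hx y hy hxy
  simp only [Set.mem_insert_iff, Set.mem_singleton_iff] at hx hy
  rcases hx with rfl | rfl <;> rcases hy with rfl | rfl
  · rfl
  · exact absurd hxy h
  · exact absurd hxy.symm h
  · rfl

/-- Pairwise criterion. -/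
lemma ogood_of_pairs [Infinite D] (hsurj : Function.Surjective dir)
    (hsw : HasSwaps dir H) (U : Finset X)
    (hU : ∀ u ∈ U, ∀ v ∈ U, u ≠ v → OGood dir H ({u, v} : Set X)) :
    OGood dir H (U : Set X) := by
  classical
  induction U using Finset.induction_on with
  | empty => apply ogood_of_injOn; simp
  | insert y U' hy ih =>
    have ihU' : OGood dir H (U' : Set X) :=
      ih (fun u hu v hv huv => hU u (by simp [hu]) v (by simp [hv]) huv)
    intro S hS
    -- extra fresh star
    have hF : (dir '' ((insert y U' ∪ S : Finset X) : Set X)).Finite :=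
      (Finset.finite_toSet _).image _
    obtain ⟨t, ht1, ht2⟩ := exists_fresh_family (dir := dir) hsurj
      (Finset.range (U'.card + S.card)) hF
    have htinj : Set.InjOn t (Finset.range (U'.card + S.card) : Set ℕ) := by
      intro a ha b hb hab; exact ht1 ha hb (by simp [hab])
    set S₂ : Finset X := (Finset.range (U'.card + S.card)).image t with hS₂
    have hS₂card : S₂.card = U'.card + S.card := by
      rw [hS₂, Finset.card_image_of_injOn htinj, Finset.card_range]
    have hS₂fresh : Fresh dir (S₂ : Set X) ((insert y U' ∪ S : Finset X) : Set X) := by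
      constructor
      · intro x hx x' hx' hxx'
        simp only [hS₂, Finset.coe_image, Set.mem_image, Finset.mem_coe] at hx hx'
        obtain ⟨a, ha, rfl⟩ := hx
        obtain ⟨b, hb, rfl⟩ := hx'
        rw [ht1 ha hb hxx']
      · intro x hx z hz hxz
        simp only [hS₂, Finset.coe_image, Set.mem_image, Finset.mem_coe] at hx
        obtain ⟨a, ha, rfl⟩ := hx
        exact ht2 a ha ⟨z, hz, hxz.symm⟩
    have hfreshU' : Fresh dir ((S ∪ S₂ : Finset X) : Set X) (U' : Set X) := by
      constructor
      · intro x hx x' hx' hxx'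
        simp only [Finset.coe_union, Set.mem_union, Finset.mem_coe] at hx hx'
        rcases hx with hx | hx <;> rcases hx' with hx' | hx'
        · exact hS.1 hx hx' hxx'
        · exact absurd hxx'.symm (hS₂fresh.2 x' hx' x (by simp [hx]))
        · exact absurd hxx' (hS₂fresh.2 x hx x' (by simp [hx']))
        · exact hS₂fresh.1 hx hx' hxx'
      · intro x hx z hz
        simp only [Finset.coe_union, Set.mem_union, Finset.mem_coe] at hx hz
        rcases hx with hx | hx
        · exact hS.2 x hx z (by simp [hz])
        · exact hS₂fresh.2 x hx z (by simp [hz])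
    obtain ⟨h, hh, hinj⟩ := ihU' (S ∪ S₂) hfreshU'
    by_cases hcase : ∀ v ∈ U' ∪ S, dir (h v) ≠ dir (h y)
    · refine ⟨h, hh, ?_⟩
      intro a ha b hb hab
      simp only [Finset.coe_insert, Set.mem_union, Set.mem_insert_iff, Finset.mem_coe] at ha hb
      have ha' : a = y ∨ a ∈ U' ∪ S := by
        rcases ha with (ha | ha) | ha
        · exact Or.inl ha
        · right; simp [ha]
        · right; simp [ha]
      have hb' : b = y ∨ b ∈ U' ∪ S := by
        rcases hb with (hb | hb) | hb
        · exact Or.inl hb
        · right; simp [hb]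
        · right; simp [hb]
      rcases ha' with rfl | ha' <;> rcases hb' with rfl | hb'
      · rfl
      · exact absurd hab.symm (hcase b hb')
      · exact absurd hab (hcase a ha')
      · apply hinj _ _ hab
        · rw [Finset.mem_union] at ha'
          simp only [Finset.coe_union, Set.mem_union, Finset.mem_coe]; tauto
        · rw [Finset.mem_union] at hb'
          simp only [Finset.coe_union, Set.mem_union, Finset.mem_coe]; tauto
    · push Not at hcase
      obtain ⟨v, hv, hvy⟩ := hcase
      have hvne : v ≠ y := by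
        rintro rfl
        rw [Finset.mem_union] at hv
        rcases hv with hv | hv
        · exact hy hv
        · exact hS.2 v hv v (by simp) rfl
      have hpair : OGood dir H ({v, y} : Set X) := by
        rw [Finset.mem_union] at hv
        rcases hv with hv | hv
        · exact hU v (by simp [hv]) y (by simp) hvne
        · exact ogood_pair_of_ne (hS.2 v hv y (by simp))
      have hS₂pair : Fresh dir (S₂ : Set X) ({v, y} : Set X) := by
        refine ⟨hS₂fresh.1, ?_⟩
        intro s hs z hz
        apply hS₂fresh.2 s hs z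
        simp only [Set.mem_insert_iff, Set.mem_singleton_iff] at hz
        rw [Finset.mem_union] at hv
        rcases hz with rfl | rfl
        · simp only [Finset.coe_union, Finset.coe_insert, Set.mem_union, Set.mem_insert_iff,
            Finset.mem_coe]; tauto
        · simp
      have hgood1 := hpair S₂ hS₂pair
      have hgood2 : Good dir H (({h v, h y} : Set X) ∪ (S₂.image h : Finset X)) := by
        have := hgood1.image hh
        rw [Set.image_union, Set.image_pair] at this
        rwa [Finset.coe_image]
      -- the target star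
      set S' : Finset X := ((U' ∪ S).erase v).image h with hS'
      have hmem : ∀ a ∈ U' ∪ S, a ∈ ((U' : Set X) ∪ ((S ∪ S₂ : Finset X) : Set X)) := by
        intro a ha
        rw [Finset.mem_union] at ha
        simp only [Finset.coe_union, Set.mem_union, Finset.mem_coe]; tauto
      have hmem2 : ∀ a ∈ S₂, a ∈ ((U' : Set X) ∪ ((S ∪ S₂ : Finset X) : Set X)) := by
        intro a ha
        simp only [Finset.coe_union, Set.mem_union, Finset.mem_coe]; tauto
      have hfresh1 : Fresh dir ((S₂.image h : Finset X) : Set X) ({h v, h y} : Set X) := by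
        constructor
        · intro x hx x' hx' hxx'
          simp only [Finset.coe_image, Set.mem_image, Finset.mem_coe] at hx hx'
          obtain ⟨a, ha, rfl⟩ := hx
          obtain ⟨b, hb, rfl⟩ := hx'
          rw [hinj (hmem2 a ha) (hmem2 b hb) hxx']
        · intro x hx z hz hxz
          simp only [Finset.coe_image, Set.mem_image, Finset.mem_coe] at hx
          obtain ⟨a, ha, rfl⟩ := hx
          have hz' : dir z = dir (h v) := by
            simp only [Set.mem_insert_iff, Set.mem_singleton_iff] at hz
            rcases hz with rfl | rfl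
            · rfl
            · exact hvy.symm
          have hav := hinj (hmem2 a ha) (hmem v hv) (hxz.trans hz')
          rw [hav] at ha
          exact hS₂fresh.2 v ha v (by
            rw [Finset.mem_union] at hv
            simp only [Finset.coe_union, Finset.coe_insert, Set.mem_union, Set.mem_insert_iff,
              Finset.mem_coe]; tauto) rfl
      have hfresh2 : Fresh dir (S' : Set X) ({h v, h y} : Set X) := by
        constructor
        · intro x hx x' hx' hxx'
          simp only [hS', Finset.coe_image, Set.mem_image, Finset.mem_coe] at hx hx'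
          obtain ⟨a, ha, rfl⟩ := hx
          obtain ⟨b, hb, rfl⟩ := hx'
          rw [hinj (hmem a (Finset.mem_of_mem_erase ha)) (hmem b (Finset.mem_of_mem_erase hb)) hxx']
        · intro x hx z hz hxz
          simp only [hS', Finset.coe_image, Set.mem_image, Finset.mem_coe] at hx
          obtain ⟨a, ha, rfl⟩ := hx
          have hz' : dir z = dir (h v) := by
            simp only [Set.mem_insert_iff, Set.mem_singleton_iff] at hz
            rcases hz with rfl | rfl
            · rfl
            · exact hvy.symm
          have hav := hinj (hmem a (Finset.mem_of_mem_erase ha)) (hmem v hv) (hxz.trans hz')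
          exact (Finset.mem_erase.1 ha).1 hav
      have hc2 : (S₂.image h).card = U'.card + S.card := by
        rw [Finset.card_image_of_injective _ h.injective, hS₂card]
      have hcard : S'.card ≤ (S₂.image h).card := by
        rw [hc2]
        calc S'.card ≤ ((U' ∪ S).erase v).card := Finset.card_image_le
          _ ≤ (U' ∪ S).card := Finset.card_le_card (Finset.erase_subset _ _)
          _ ≤ U'.card + S.card := Finset.card_union_le _ _
      have hgood3 := good_transfer hsurj hsw (Set.toFinite _) hfresh2 hfresh1 hcard hgood2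
      apply Good.of_image hh
      apply hgood3.mono
      rintro _ ⟨x, hx, rfl⟩
      simp only [Finset.coe_insert, Set.mem_union, Set.mem_insert_iff, Finset.mem_coe] at hx
      by_cases hxy : x = y
      · left; simp [hxy]
      · by_cases hxv : x = v
        · left; simp [hxv]
        · right
          simp only [hS', Finset.coe_image, Set.mem_image, Finset.mem_coe]
          refine ⟨x, ?_, rfl⟩
          rw [Finset.mem_erase, Finset.mem_union]
          tauto

lemma exists_fresh_seq [Infinite D] (hsurj : Function.Surjective dir)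
    {F : Set D} (hF : F.Finite) :
    ∃ s : ℕ → X, Function.Injective (fun a => dir (s a)) ∧ ∀ a, dir (s a) ∉ F := by
  have hinf : (Fᶜ).Infinite := hF.infinite_compl
  let emb := hinf.natEmbedding
  refine ⟨fun a => Function.surjInv hsurj (emb a : D), ?_, ?_⟩
  · intro a b hab
    simp only [Function.surjInv_eq] at hab
    exact emb.injective (Subtype.ext hab)
  · intro a
    simp only [Function.surjInv_eq]
    exact (emb a).2

/-- If a star quadruple is moved to a quadruple `x, y, z, w` with `x, y, z` in different directions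
and `z, w` in the same direction, then already the pair `z, w` is good relative to the node. -/
lemma ogood_pair_of_good [Infinite D] (hsurj : Function.Surjective dir)
    (hsw : HasSwaps dir H) {x y z w : X}
    (hxy : dir x ≠ dir y) (hxz : dir x ≠ dir z) (hyz : dir y ≠ dir z) (hzw : dir w = dir z)
    (hne : z ≠ w) (hgood : Good dir H ({x, y, z, w} : Set X)) :
    OGood dir H ({z, w} : Set X) := by
  classical
  obtain ⟨g, hg, hinj⟩ := hgood
  set Q : Set X := {x, y, z, w} with hQ
  have hQfin : Q.Finite := Set.toFinite _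
  obtain ⟨f, hf1, hf2⟩ := exists_fresh_seq (dir := dir) hsurj
    (F := (fun a => dir (g a)) '' Q) (hQfin.image _)
  have hfinj : Function.Injective f := fun a b hab => hf1 (by simp [hab])
  -- the exceptional direction
  obtain ⟨e, he⟩ : ∃ e : D, ∀ E : Set D, E.Finite → e ∉ E →
      {i | dir (g⁻¹ (f i)) ∉ E}.Infinite := by
    by_cases hd : ∃ d, {i | dir (g⁻¹ (f i)) = d}.Infinite
    · obtain ⟨d, hd⟩ := hd
      refine ⟨d, fun E _ hE => hd.mono ?_⟩
      intro i hi
      have hi' : dir (g⁻¹ (f i)) = d := hi
      show dir (g⁻¹ (f i)) ∉ E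
      rwa [hi']
    · push Not at hd
      obtain ⟨d0⟩ : Nonempty D := inferInstance
      refine ⟨d0, fun E hE _ => ?_⟩
      have hfin : {i | dir (g⁻¹ (f i)) ∈ E}.Finite := by
        have : {i | dir (g⁻¹ (f i)) ∈ E} = ⋃ d ∈ E, {i | dir (g⁻¹ (f i)) = d} := by
          ext i; simp
        rw [this]
        exact hE.biUnion (fun d _ => hd d)
      exact hfin.infinite_compl
  -- helper
  have helper : ∀ (α β α' β' : X) (E : Set D), E.Finite → e ∉ E → ∀ k ∈ H, k α = α' → k β = β' →
      (∀ v, dir v ∉ E → k v = v) → α' ∈ Q → β' ∈ Q → OGood dir H ({g α, g β} : Set X) := by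
    intro α β α' β' E hE heE k hk hkα hkβ hkv hα' hβ'
    apply ogood_of_arbitrarily_large hsurj hsw (Set.toFinite _)
    intro n
    have h1 : {i | dir (g⁻¹ (f i)) ∉ E}.Infinite := he E hE heE
    have h2 : {i | dir (f i) ∈ ({dir (g α), dir (g β)} : Set D)}.Finite := by
      apply Set.Finite.preimage (f := fun i => dir (f i)) (fun a _ b _ hab => hf1 hab)
      exact Set.toFinite _
    have h3 : ({i | dir (g⁻¹ (f i)) ∉ E} \ {i | dir (f i) ∈ ({dir (g α), dir (g β)} : Set D)}).Infinite :=
      h1.sdiff h2
    obtain ⟨I, hI, hIcard⟩ := h3.exists_subset_card_eq n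
    refine ⟨I.image f, ?_, ?_, ?_⟩
    · rw [Finset.card_image_of_injective _ hfinj, hIcard]
    · constructor
      · intro a ha b hb hab
        simp only [Finset.coe_image, Set.mem_image, Finset.mem_coe] at ha hb
        obtain ⟨i, _, rfl⟩ := ha
        obtain ⟨j, _, rfl⟩ := hb
        rw [hf1 hab]
      · intro a ha b hb hab
        simp only [Finset.coe_image, Set.mem_image, Finset.mem_coe] at ha
        obtain ⟨i, hi, rfl⟩ := ha
        have := (hI hi).2
        simp only [Set.mem_insert_iff, Set.mem_singleton_iff] at hb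
        apply this
        rcases hb with rfl | rfl <;> simp [hab]
    · have hgood2 : Good dir H (Q ∪ ((I.image (fun i => g⁻¹ (f i)) : Finset X) : Set X)) := by
        refine ⟨g, hg, ?_⟩
        intro a ha b hb hab
        simp only [Finset.coe_image, Set.mem_union, Set.mem_image, Finset.mem_coe] at ha hb
        rcases ha with ha | ⟨i, hi, rfl⟩ <;> rcases hb with hb | ⟨j, hj, rfl⟩
        · exact hinj ha hb hab
        · simp only [perm_apply_inv] at hab
          exact absurd ⟨a, ha, hab⟩ (hf2 j)
        · simp only [perm_apply_inv] at hab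
          exact absurd ⟨b, hb, hab.symm⟩ (hf2 i)
        · simp only [perm_apply_inv] at hab
          rw [hf1 hab]
      have hgood3 : Good dir H (({α, β} : Set X) ∪
          ((I.image (fun i => g⁻¹ (f i)) : Finset X) : Set X)) := by
        apply Good.of_image hk
        apply hgood2.mono
        rintro _ ⟨a, ha, rfl⟩
        simp only [Finset.coe_image, Set.mem_union, Set.mem_image, Finset.mem_coe,
          Set.mem_insert_iff, Set.mem_singleton_iff] at ha
        rcases ha with (rfl | rfl) | ⟨i, hi, rfl⟩
        · left; rw [hkα]; exact hα'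
        · left; rw [hkβ]; exact hβ'
        · right
          rw [hkv _ (hI hi).1]
          simp only [Finset.coe_image, Set.mem_image, Finset.mem_coe]
          exact ⟨i, hi, rfl⟩
      have := hgood3.image hg
      apply this.mono
      intro a ha
      simp only [Finset.coe_image, Set.mem_union, Set.mem_image, Finset.mem_coe,
          Set.mem_insert_iff, Set.mem_singleton_iff] at ha
      rcases ha with (rfl | rfl) | ⟨i, hi, rfl⟩
      · exact ⟨α, by simp, rfl⟩
      · exact ⟨β, by simp, rfl⟩
      · refine ⟨g⁻¹ (f i), ?_, by simp⟩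
        right
        simp only [Finset.coe_image, Set.mem_image, Finset.mem_coe]
        exact ⟨i, hi, rfl⟩
  obtain ⟨x', hx'Q, hx'e, hx'z⟩ : ∃ x' ∈ Q, dir x' ≠ e ∧ dir x' ≠ dir z := by
    by_cases h : dir x = e
    · exact ⟨y, by simp [hQ], fun h' => hxy (h.trans h'.symm), hyz⟩
    · exact ⟨x, by simp [hQ], h, hxz⟩
  obtain ⟨a', b', ha'Q, hb'Q, ha'e, hb'e, hab'⟩ : ∃ a' b', a' ∈ Q ∧ b' ∈ Q ∧ dir a' ≠ e ∧
      dir b' ≠ e ∧ dir a' ≠ dir b' := by
    by_cases h : dir x = e
    · exact ⟨y, z, by simp [hQ], by simp [hQ], fun h' => hxy (h.trans h'.symm),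
        fun h' => hxz (h.trans h'.symm), hyz⟩
    · by_cases h2 : dir y = e
      · exact ⟨x, z, by simp [hQ], by simp [hQ], h, fun h' => hyz (h2.trans h'.symm), hxz⟩
      · exact ⟨x, y, by simp [hQ], by simp [hQ], h, h2, hxy⟩
  apply ogood_of_arbitrarily_large hsurj hsw (Set.toFinite _)
  intro n
  obtain ⟨t, ht1, ht2⟩ := exists_fresh_family (dir := dir) hsurj (Finset.range n)
    (F := insert e (dir '' Q)) ((hQfin.image _).insert _)
  have htinj : Set.InjOn t (Finset.range n : Set ℕ) := fun a ha b hb hab => ht1 ha hb (by simp [hab])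
  set T : Finset X := (Finset.range n).image t with hT
  have hTdir : ∀ u ∈ T, dir u ≠ e ∧ ∀ q ∈ Q, dir u ≠ dir q := by
    intro u hu
    simp only [hT, Finset.mem_image] at hu
    obtain ⟨i, hi, rfl⟩ := hu
    have := ht2 i hi
    simp only [Set.mem_insert_iff, Set.mem_image, not_or, not_exists, not_and] at this
    exact ⟨this.1, fun q hq h => this.2 q hq h.symm⟩
  have hTinj : Set.InjOn dir (T : Set X) := by
    intro a ha b hb hab
    simp only [hT, Finset.coe_image, Set.mem_image, Finset.mem_coe] at ha hb
    obtain ⟨i, hi, rfl⟩ := ha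
    obtain ⟨j, hj, rfl⟩ := hb
    rw [ht1 hi hj hab]
  refine ⟨T, ?_, ⟨hTinj, ?_⟩, ?_⟩
  · rw [hT, Finset.card_image_of_injOn htinj, Finset.card_range]
  · intro s hs q hq
    apply (hTdir s hs).2 q
    simp only [Set.mem_insert_iff, Set.mem_singleton_iff] at hq
    simp only [hQ, Set.mem_insert_iff, Set.mem_singleton_iff]; tauto
  · apply Good.of_image hg
    have hOG : OGood dir H (((({z, w} : Finset X) ∪ T).image g : Finset X) : Set X) := by
      apply ogood_of_pairs hsurj hsw
      -- claims
      have claim1 : ∀ α ∈ ({z, w} : Finset X), ∀ u ∈ T, OGood dir H ({g α, g u} : Set X) := by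
        intro α hα u hu
        have hαQ : α ∈ Q := by
          simp only [Finset.mem_insert, Finset.mem_singleton] at hα
          simp only [hQ, Set.mem_insert_iff, Set.mem_singleton_iff]; tauto
        have hαz : dir α = dir z := by
          simp only [Finset.mem_insert, Finset.mem_singleton] at hα
          rcases hα with rfl | rfl
          · rfl
          · exact hzw
        obtain ⟨s, hs, hs1, hs2, hs3⟩ := hsw u x' ((hTdir u hu).2 x' hx'Q)
        refine helper α u α x' {dir u, dir x'} (Set.toFinite _) ?_ s hs ?_ hs1 ?_ hαQ hx'Q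
        · simp only [Set.mem_insert_iff, Set.mem_singleton_iff, not_or]
          exact ⟨fun h => (hTdir u hu).1 h.symm, fun h => hx'e h.symm⟩
        · apply hs3
          · exact fun h => (hTdir u hu).2 α hαQ h.symm
          · rw [hαz]; exact fun h => hx'z h.symm
        · intro v hv
          simp only [Set.mem_insert_iff, Set.mem_singleton_iff, not_or] at hv
          exact hs3 v hv.1 hv.2
      have claim2 : ∀ u ∈ T, ∀ u' ∈ T, u ≠ u' → OGood dir H ({g u, g u'} : Set X) := by
        intro u hu u' hu' huu'
        have hdu : dir u ≠ dir u' := fun h => huu' (hTinj hu hu' h)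
        obtain ⟨s, hs, hs1, hs2, hs3⟩ := hsw u a' ((hTdir u hu).2 a' ha'Q)
        obtain ⟨r, hr, hr1, hr2, hr3⟩ := hsw u' b' ((hTdir u' hu').2 b' hb'Q)
        refine helper u u' a' b' {dir u, dir a', dir u', dir b'} (Set.toFinite _) ?_ (r * s)
          (H.mul_mem hr hs) ?_ ?_ ?_ ha'Q hb'Q
        · simp only [Set.mem_insert_iff, Set.mem_singleton_iff, not_or]
          exact ⟨fun h => (hTdir u hu).1 h.symm, fun h => ha'e h.symm,
            fun h => (hTdir u' hu').1 h.symm, fun h => hb'e h.symm⟩
        · rw [Equiv.Perm.mul_apply, hs1]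
          apply hr3
          · exact fun h => (hTdir u' hu').2 a' ha'Q h.symm
          · exact hab'
        · rw [Equiv.Perm.mul_apply, hs3 u' (fun h => hdu h.symm) ((hTdir u' hu').2 a' ha'Q), hr1]
        · intro v hv
          simp only [Set.mem_insert_iff, Set.mem_singleton_iff, not_or] at hv
          rw [Equiv.Perm.mul_apply, hs3 v hv.1 hv.2.1, hr3 v hv.2.2.1 hv.2.2.2]
      intro p hp q hq hpq
      simp only [Finset.mem_image, Finset.mem_union] at hp hq
      obtain ⟨α, hα, rfl⟩ := hp
      obtain ⟨β, hβ, rfl⟩ := hq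
      have hαβ : α ≠ β := fun h => hpq (by rw [h])
      rcases hα with hα | hα <;> rcases hβ with hβ | hβ
      · apply ogood_pair_of_ne
        intro h
        apply hαβ
        apply hinj _ _ h
        · simp only [Finset.mem_insert, Finset.mem_singleton] at hα
          simp only [hQ, Set.mem_insert_iff, Set.mem_singleton_iff]; tauto
        · simp only [Finset.mem_insert, Finset.mem_singleton] at hβ
          simp only [hQ, Set.mem_insert_iff, Set.mem_singleton_iff]; tauto
      · exact claim1 α hα β hβ
      · rw [Set.pair_comm]; exact claim1 β hβ α hα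
      · exact claim2 α hα β hβ hαβ
    have := hOG ∅ ⟨by simp, by simp⟩
    apply this.mono
    rintro _ ⟨a, ha, rfl⟩
    left
    simp only [Finset.coe_image, Set.mem_image, Finset.mem_coe, Finset.mem_union,
      Finset.mem_insert, Finset.mem_singleton]
    refine ⟨a, ?_, rfl⟩
    simpa using ha

/-- If all pairs are good then a closed group is everything. -/
lemma eq_top_of_all_pairs [Infinite D] (hsurj : Function.Surjective dir)
    (hsw : HasSwaps dir H)
    (hclosed : ∀ σ : Equiv.Perm X, (∀ A : Finset X, ∃ g ∈ H, ∀ a ∈ A, g a = σ a) → σ ∈ H)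
    (hpairs : ∀ u v : X, u ≠ v → OGood dir H ({u, v} : Set X)) : H = ⊤ := by
  classical
  rw [eq_top_iff]
  intro σ _
  apply hclosed
  intro A
  have hall : ∀ B : Finset X, Good dir H (B : Set X) := by
    intro B
    have := ogood_of_pairs hsurj hsw B (fun u _ v _ huv => hpairs u v huv)
    exact (this ∅ ⟨by simp, by simp⟩).mono Set.subset_union_left
  obtain ⟨h1, hh1, hinj1⟩ := hall A
  obtain ⟨h2, hh2, hinj2⟩ := hall (A.image σ)
  obtain ⟨k, hk, hk1, -⟩ := transfer hsurj hsw A (fun a => h1 a) (fun a => h2 (σ a))
    (E := ∅) Set.finite_empty hinj1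
    (by
      intro a ha b hb hab
      have := hinj2 (Finset.mem_coe.2 (Finset.mem_image_of_mem σ ha))
        (Finset.mem_coe.2 (Finset.mem_image_of_mem σ hb)) hab
      exact σ.injective this)
    (by simp) (by simp)
  refine ⟨h2⁻¹ * k * h1, H.mul_mem (H.mul_mem (H.inv_mem hh2) hk) hh1, ?_⟩
  intro a ha
  simp only [Equiv.Perm.mul_apply]
  rw [hk1 a ha]; simp

end Abstract

end Pool.Agent.MP_6aa20f_lc
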