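import Mathlib
import Pool.Agent.MP_6aa20f_lc.Abstract

/-!
Concrete part: the projective-line-like set `Option (Λ →₀ ℤ)` over an ordered abelian group `Λ`,
its logarithmic distance `beta`, and the group `G0` of permutations preserving all cross-ratios.
-/

namespace Pool.Agent.MP_6aa20f_lc

variable {Λ : Type*} [AddCommGroup Λ] [LinearOrder Λ] [IsOrderedAddMonoid Λ]

/-- The largest element of the support (and `0` for the zero function). -/
noncomputable def deg (x : Λ →₀ ℤ) : Λ :=
  if h : x.support.Nonempty then x.support.max' h else 0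

omit [IsOrderedAddMonoid Λ] in
lemma apply_deg_ne {x : Λ →₀ ℤ} (hx : x ≠ 0) : x (deg x) ≠ 0 := by
  have h : x.support.Nonempty := Finsupp.support_nonempty_iff.2 hx
  rw [deg, dif_pos h, ← Finsupp.mem_support_iff]
  exact Finset.max'_mem _ _

omit [IsOrderedAddMonoid Λ] in
lemma le_deg {x : Λ →₀ ℤ} {μ : Λ} (h : x μ ≠ 0) : μ ≤ deg x := by
  have h' : x.support.Nonempty := ⟨μ, Finsupp.mem_support_iff.2 h⟩
  rw [deg, dif_pos h']
  exact Finset.le_max' _ _ (Finsupp.mem_support_iff.2 h)

omit [IsOrderedAddMonoid Λ] in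
lemma apply_eq_zero_of_deg_lt {x : Λ →₀ ℤ} {μ : Λ} (h : deg x < μ) : x μ = 0 := by
  by_contra h'
  exact absurd (le_deg h') (not_le.2 h)

omit [IsOrderedAddMonoid Λ] in
lemma deg_eq {x : Λ →₀ ℤ} {μ : Λ} (h : x μ ≠ 0) (h' : ∀ ν, μ < ν → x ν = 0) : deg x = μ := by
  apply le_antisymm _ (le_deg h)
  have hx : x ≠ 0 := by rintro rfl; simp at h
  by_contra hlt
  exact apply_deg_ne hx (h' _ (not_le.1 hlt))

omit [IsOrderedAddMonoid Λ] in
lemma deg_eq_iff {x : Λ →₀ ℤ} (hx : x ≠ 0) {μ : Λ} :
    deg x = μ ↔ x μ ≠ 0 ∧ ∀ ν, μ < ν → x ν = 0 := by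
  constructor
  · rintro rfl
    exact ⟨apply_deg_ne hx, fun ν hν => apply_eq_zero_of_deg_lt hν⟩
  · rintro ⟨h, h'⟩; exact deg_eq h h'

omit [IsOrderedAddMonoid Λ] in
@[simp] lemma deg_zero : deg (0 : Λ →₀ ℤ) = 0 := by simp [deg]

omit [IsOrderedAddMonoid Λ] in
@[simp] lemma deg_neg (x : Λ →₀ ℤ) : deg (-x) = deg x := by
  by_cases hx : x = 0
  · simp [hx]
  · apply deg_eq
    · simpa using apply_deg_ne hx
    · intro ν hν; simpa using apply_eq_zero_of_deg_lt hν

omit [IsOrderedAddMonoid Λ] in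
lemma deg_sub_comm (x y : Λ →₀ ℤ) : deg (x - y) = deg (y - x) := by
  rw [← deg_neg, neg_sub]

omit [IsOrderedAddMonoid Λ] in
lemma deg_single (μ : Λ) {a : ℤ} (ha : a ≠ 0) : deg (Finsupp.single μ a) = μ := by
  apply deg_eq
  · simpa using ha
  · intro ν hν; rw [Finsupp.single_apply, if_neg (ne_of_lt hν)]

omit [IsOrderedAddMonoid Λ] in
/-- Adding something that vanishes from the degree on does not change the degree. -/
lemma deg_add_of_lt {x y : Λ →₀ ℤ} (hx : x ≠ 0) (hy : ∀ ν, deg x ≤ ν → y ν = 0) :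
    deg (x + y) = deg x := by
  apply deg_eq
  · rw [Finsupp.add_apply, hy _ le_rfl, add_zero]; exact apply_deg_ne hx
  · intro ν hν
    rw [Finsupp.add_apply, hy _ hν.le, apply_eq_zero_of_deg_lt hν, add_zero]

omit [IsOrderedAddMonoid Λ] in
lemma deg_sub_of_lt {x y : Λ →₀ ℤ} (hx : x ≠ 0) (h : deg y < deg x) :
    deg (x - y) = deg x := by
  rw [sub_eq_add_neg]
  apply deg_add_of_lt hx
  intro ν hν
  rw [Finsupp.neg_apply, apply_eq_zero_of_deg_lt (lt_of_lt_of_le h hν), neg_zero]

/-- The shift of exponents by `l`. -/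
noncomputable def shift (l : Λ) : (Λ →₀ ℤ) ≃+ (Λ →₀ ℤ) := Finsupp.domCongr (Equiv.addRight l)

omit [LinearOrder Λ] [IsOrderedAddMonoid Λ] in
@[simp] lemma shift_apply (l : Λ) (x : Λ →₀ ℤ) (μ : Λ) : shift l x μ = x (μ - l) := by
  simp [shift, Finsupp.domCongr, sub_eq_add_neg]

omit [IsOrderedAddMonoid Λ] in
lemma shift_single (l μ : Λ) (a : ℤ) : shift l (Finsupp.single μ a) = Finsupp.single (μ + l) a := by
  ext ν
  rw [shift_apply, Finsupp.single_apply, Finsupp.single_apply]
  by_cases h : μ = ν - l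
  · rw [if_pos h, if_pos (by rw [h]; abel)]
  · rw [if_neg h, if_neg (by intro h'; apply h; rw [← h']; abel)]

lemma deg_shift (l : Λ) {x : Λ →₀ ℤ} (hx : x ≠ 0) : deg (shift l x) = deg x + l := by
  apply deg_eq
  · rw [shift_apply, add_sub_cancel_right]; exact apply_deg_ne hx
  · intro ν hν
    rw [shift_apply]
    exact apply_eq_zero_of_deg_lt (by rwa [lt_sub_iff_add_lt])

omit [LinearOrder Λ] [IsOrderedAddMonoid Λ] in
lemma shift_ne_zero (l : Λ) {x : Λ →₀ ℤ} (hx : x ≠ 0) : shift l x ≠ 0 := by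
  intro h; exact hx ((shift l).injective (by rw [h, map_zero]))

omit [LinearOrder Λ] [IsOrderedAddMonoid Λ] in
lemma shift_shift (l m : Λ) (x : Λ →₀ ℤ) : shift l (shift m x) = shift (l + m) x := by
  ext ν; simp only [shift_apply]; congr 1; abel

omit [LinearOrder Λ] [IsOrderedAddMonoid Λ] in
@[simp] lemma shift_zero (x : Λ →₀ ℤ) : shift (0 : Λ) x = x := by
  ext ν; simp

/-! ### The distance function -/

/-- Twice the logarithmic distance; `0` as soon as one of the points is at infinity. -/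
noncomputable def beta : Option (Λ →₀ ℤ) → Option (Λ →₀ ℤ) → Λ
  | some x, some y => (2 : ℕ) • deg (x - y)
  | _, _ => 0

omit [IsOrderedAddMonoid Λ] in
@[simp] lemma beta_some (x y : Λ →₀ ℤ) : beta (some x) (some y) = (2 : ℕ) • deg (x - y) := rfl
omit [IsOrderedAddMonoid Λ] in
@[simp] lemma beta_none_left (y : Option (Λ →₀ ℤ)) : beta none y = 0 := by cases y <;> rfl
omit [IsOrderedAddMonoid Λ] in
@[simp] lemma beta_none_right (y : Option (Λ →₀ ℤ)) : beta y none = 0 := by cases y <;> rfl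

omit [IsOrderedAddMonoid Λ] in
lemma beta_comm (x y : Option (Λ →₀ ℤ)) : beta x y = beta y x := by
  cases x <;> cases y <;> simp [deg_sub_comm]

/-- The (logarithmic) cross-ratio. -/
noncomputable def cr (x y z w : Option (Λ →₀ ℤ)) : Λ :=
  beta x z + beta y w - beta x w - beta y z

/-- Pairwise distinct quadruples. -/
def Dist4 {X : Type*} (x y z w : X) : Prop := x ≠ y ∧ x ≠ z ∧ x ≠ w ∧ y ≠ z ∧ y ≠ w ∧ z ≠ w

lemma Dist4.map {X : Type*} {x y z w : X} (h : Dist4 x y z w) (g : Equiv.Perm X) :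
    Dist4 (g x) (g y) (g z) (g w) := by
  obtain ⟨h1, h2, h3, h4, h5, h6⟩ := h
  exact ⟨g.injective.ne h1, g.injective.ne h2, g.injective.ne h3, g.injective.ne h4,
    g.injective.ne h5, g.injective.ne h6⟩

variable (Λ) in
/-- The group of all permutations preserving all cross-ratios of four distinct points. -/
noncomputable def G0 : Subgroup (Equiv.Perm (Option (Λ →₀ ℤ))) where
  carrier := {g | ∀ x y z w, Dist4 x y z w → cr (g x) (g y) (g z) (g w) = cr x y z w}
  one_mem' := by intro x y z w _; rfl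
  mul_mem' := by
    intro g h hg hh x y z w hd
    rw [Equiv.Perm.mul_apply, Equiv.Perm.mul_apply, Equiv.Perm.mul_apply, Equiv.Perm.mul_apply,
      hg _ _ _ _ (hd.map h), hh _ _ _ _ hd]
  inv_mem' := by
    intro g hg x y z w hd
    have := hg _ _ _ _ (hd.map g⁻¹)
    simp only [perm_apply_inv] at this
    exact this.symm

omit [IsOrderedAddMonoid Λ] in
lemma mem_G0 {g : Equiv.Perm (Option (Λ →₀ ℤ))} :
    g ∈ G0 Λ ↔ ∀ x y z w, Dist4 x y z w → cr (g x) (g y) (g z) (g w) = cr x y z w := Iff.rfl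

omit [IsOrderedAddMonoid Λ] in
/-- Gauge criterion for membership in `G0`. -/
lemma mem_G0_of_gauge {g : Equiv.Perm (Option (Λ →₀ ℤ))} (φ : Option (Λ →₀ ℤ) → Λ)
    (h : ∀ x y, x ≠ y → beta (g x) (g y) = beta x y + φ x + φ y) : g ∈ G0 Λ := by
  intro x y z w hd
  obtain ⟨h1, h2, h3, h4, h5, h6⟩ := hd
  rw [cr, cr, h x z h2, h y w h5, h x w h3, h y z h4]
  abel

/-- Translation by `a`, fixing infinity. -/
noncomputable def tr (a : Λ →₀ ℤ) : Equiv.Perm (Option (Λ →₀ ℤ)) :=
  Equiv.optionCongr (Equiv.addRight a)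

omit [AddCommGroup Λ] [LinearOrder Λ] [IsOrderedAddMonoid Λ] in
@[simp] lemma tr_some (a x : Λ →₀ ℤ) : tr a (some x) = some (x + a) := rfl
omit [AddCommGroup Λ] [LinearOrder Λ] [IsOrderedAddMonoid Λ] in
@[simp] lemma tr_none (a : Λ →₀ ℤ) : tr a none = none := rfl

omit [IsOrderedAddMonoid Λ] in
lemma tr_mem (a : Λ →₀ ℤ) : tr a ∈ G0 Λ := by
  apply mem_G0_of_gauge (fun _ => 0)
  intro x y hxy
  cases x <;> cases y <;> simp

/-- Shift of exponents, fixing infinity. -/
noncomputable def sh (l : Λ) : Equiv.Perm (Option (Λ →₀ ℤ)) :=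
  Equiv.optionCongr (shift l).toEquiv

omit [LinearOrder Λ] [IsOrderedAddMonoid Λ] in
@[simp] lemma sh_some (l : Λ) (x : Λ →₀ ℤ) : sh l (some x) = some (shift l x) := rfl
omit [LinearOrder Λ] [IsOrderedAddMonoid Λ] in
@[simp] lemma sh_none (l : Λ) : sh l (none : Option (Λ →₀ ℤ)) = none := rfl

lemma sh_mem (l : Λ) : sh l ∈ G0 Λ := by
  apply mem_G0_of_gauge (fun x => match x with | none => -l | some _ => l)
  intro x y hxy
  cases x with
  | none => cases y with
    | none => exact absurd rfl hxy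
    | some y => simp
  | some x => cases y with
    | none => simp
    | some y =>
      have hne : x - y ≠ 0 := by
        intro h; apply hxy; rw [sub_eq_zero.1 h]
      simp only [sh_some, beta_some]
      rw [← map_sub, deg_shift l hne]
      rw [smul_add, two_nsmul, two_nsmul]
      abel

/-- The inversion, exchanging `0` and infinity. -/
noncomputable def invFun : Option (Λ →₀ ℤ) → Option (Λ →₀ ℤ)
  | none => some 0
  | some x => if x = 0 then none else some (shift (-((2 : ℕ) • deg x)) x)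

omit [IsOrderedAddMonoid Λ] in
@[simp] lemma invFun_none : invFun (none : Option (Λ →₀ ℤ)) = some 0 := rfl
omit [IsOrderedAddMonoid Λ] in
@[simp] lemma invFun_zero : invFun (some (0 : Λ →₀ ℤ)) = none := by simp [invFun]
omit [IsOrderedAddMonoid Λ] in
lemma invFun_some {x : Λ →₀ ℤ} (hx : x ≠ 0) :
    invFun (some x) = some (shift (-((2 : ℕ) • deg x)) x) := by simp [invFun, hx]

lemma deg_shift_inv {x : Λ →₀ ℤ} (hx : x ≠ 0) : deg (shift (-((2 : ℕ) • deg x)) x) = -deg x := by
  rw [deg_shift _ hx, two_nsmul]; abel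

lemma invFun_invFun (x : Option (Λ →₀ ℤ)) : invFun (invFun x) = x := by
  cases x with
  | none => simp
  | some x =>
    by_cases hx : x = 0
    · simp [hx]
    · rw [invFun_some hx, invFun_some (shift_ne_zero _ hx), shift_shift, deg_shift_inv hx]
      congr 1
      have : (-((2 : ℕ) • (-deg x)) + -((2 : ℕ) • deg x)) = 0 := by
        rw [two_nsmul, two_nsmul]; abel
      rw [this, shift_zero]

/-- The inversion as a permutation. -/
noncomputable def invo : Equiv.Perm (Option (Λ →₀ ℤ)) :=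
  ⟨invFun, invFun, invFun_invFun, invFun_invFun⟩

@[simp] lemma invo_none : invo (none : Option (Λ →₀ ℤ)) = some 0 := rfl
@[simp] lemma invo_zero : invo (some (0 : Λ →₀ ℤ)) = none := by
  show invFun (some (0 : Λ →₀ ℤ)) = none
  exact invFun_zero
lemma invo_some {x : Λ →₀ ℤ} (hx : x ≠ 0) :
    invo (some x) = some (shift (-((2 : ℕ) • deg x)) x) := invFun_some hx
lemma invo_invo_apply (x : Option (Λ →₀ ℤ)) : invo (invo x) = x := invFun_invFun x

lemma deg_invo_sub {x y : Λ →₀ ℤ} (hx : x ≠ 0) (hy : y ≠ 0) (hxy : x ≠ y) :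
    deg (shift (-((2 : ℕ) • deg x)) x - shift (-((2 : ℕ) • deg y)) y) =
      deg (x - y) - deg x - deg y := by
  rcases lt_trichotomy (deg x) (deg y) with h | h | h
  · have h1 : deg (x - y) = deg y := by rw [deg_sub_comm, deg_sub_of_lt hy h]
    rw [h1, deg_sub_of_lt (shift_ne_zero _ hx), deg_shift_inv hx]
    · abel
    · rw [deg_shift_inv hx, deg_shift_inv hy]; exact neg_lt_neg h
  · rw [h, ← map_sub, deg_shift _ (sub_ne_zero.2 hxy), two_nsmul]; abel
  · have h1 : deg (x - y) = deg x := deg_sub_of_lt hx h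
    rw [h1, deg_sub_comm, deg_sub_of_lt (shift_ne_zero _ hy), deg_shift_inv hy]
    · abel
    · rw [deg_shift_inv hx, deg_shift_inv hy]; exact neg_lt_neg h

lemma invo_mem : invo ∈ G0 Λ := by
  apply mem_G0_of_gauge (fun x => match x with | none => 0 | some x => -((2 : ℕ) • deg x))
  intro x y hxy
  cases x with
  | none => cases y with
    | none => exact absurd rfl hxy
    | some y =>
      by_cases hy : y = 0
      · simp [hy]
      · simp only [invo_none, invo_some hy, beta_some, beta_none_left, zero_sub, deg_neg,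
          deg_shift_inv hy]
        rw [smul_neg]; abel
  | some x => cases y with
    | none =>
      by_cases hx : x = 0
      · simp [hx]
      · simp only [invo_none, invo_some hx, beta_some, beta_none_right, sub_zero,
          deg_shift_inv hx]
        rw [smul_neg]; abel
    | some y =>
      by_cases hx : x = 0
      · subst hx
        by_cases hy : y = 0
        · exact absurd (by rw [hy]) hxy
        · simp only [invo_zero, beta_none_left, beta_some, zero_sub, deg_neg, deg_zero, smul_zero,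
            neg_zero, add_zero]
          abel
      · by_cases hy : y = 0
        · subst hy
          simp only [invo_zero, beta_none_right, beta_some, sub_zero, deg_zero, smul_zero,
            neg_zero, add_zero]
          abel
        · have hne : x ≠ y := by rintro rfl; exact hxy rfl
          simp only [invo_some hx, invo_some hy, beta_some]
          rw [deg_invo_sub hx hy hne, smul_sub, smul_sub]
          abel

/-! ### Directions -/

open Classical in
/-- The direction of a point at the standard node. -/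
noncomputable def dir : Option (Λ →₀ ℤ) → Option ℤ
  | none => none
  | some x => if ∀ μ, 0 < μ → x μ = 0 then some (x 0) else none

omit [IsOrderedAddMonoid Λ] in
@[simp] lemma dir_none : dir (none : Option (Λ →₀ ℤ)) = none := rfl

omit [IsOrderedAddMonoid Λ] in
lemma dir_some_of {x : Λ →₀ ℤ} (h : ∀ μ, 0 < μ → x μ = 0) : dir (some x) = some (x 0) := by
  simp only [dir]; rw [if_pos h]

omit [IsOrderedAddMonoid Λ] in
lemma dir_some_of_not {x : Λ →₀ ℤ} {μ : Λ} (hμ : 0 < μ) (h : x μ ≠ 0) : dir (some x) = none := by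
  simp only [dir]; rw [if_neg]; intro h'; exact h (h' μ hμ)

omit [IsOrderedAddMonoid Λ] in
lemma dir_eq_some_iff {x : Λ →₀ ℤ} {a : ℤ} :
    dir (some x) = some a ↔ (∀ μ, 0 < μ → x μ = 0) ∧ x 0 = a := by
  constructor
  · intro h
    simp only [dir] at h
    split_ifs at h with h'
    exact ⟨h', Option.some_injective _ h⟩
  · rintro ⟨h, rfl⟩; exact dir_some_of h

omit [IsOrderedAddMonoid Λ] in
lemma dir_eq_none_iff {x : Λ →₀ ℤ} : dir (some x) = none ↔ ∃ μ, 0 < μ ∧ x μ ≠ 0 := by
  constructor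
  · intro h
    simp only [dir] at h
    split_ifs at h with h'
    push Not at h'
    exact h'
  · rintro ⟨μ, hμ, h⟩; exact dir_some_of_not hμ h

omit [IsOrderedAddMonoid Λ] in
lemma dir_surjective : Function.Surjective (dir : Option (Λ →₀ ℤ) → Option ℤ) := by
  intro d
  cases d with
  | none => exact ⟨none, rfl⟩
  | some a =>
    refine ⟨some (Finsupp.single 0 a), ?_⟩
    rw [dir_eq_some_iff]
    constructor
    · intro μ hμ; rw [Finsupp.single_apply, if_neg (ne_of_lt hμ)]
    · simp

variable (Λ) in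
/-- The elements of `G0` preserving the partition into directions. -/
noncomputable def K0 : Subgroup (Equiv.Perm (Option (Λ →₀ ℤ))) where
  carrier := {g | g ∈ G0 Λ ∧ ∀ x y, dir (g x) = dir (g y) ↔ dir x = dir y}
  one_mem' := ⟨(G0 Λ).one_mem, by intro x y; rfl⟩
  mul_mem' := by
    rintro g h ⟨hg, hg'⟩ ⟨hh, hh'⟩
    refine ⟨(G0 Λ).mul_mem hg hh, ?_⟩
    intro x y
    rw [Equiv.Perm.mul_apply, Equiv.Perm.mul_apply, hg', hh']
  inv_mem' := by
    rintro g ⟨hg, hg'⟩
    refine ⟨(G0 Λ).inv_mem hg, ?_⟩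
    intro x y
    rw [← hg', perm_apply_inv, perm_apply_inv]

omit [IsOrderedAddMonoid Λ] in
lemma mem_K0 {g : Equiv.Perm (Option (Λ →₀ ℤ))} :
    g ∈ K0 Λ ↔ g ∈ G0 Λ ∧ ∀ x y, dir (g x) = dir (g y) ↔ dir x = dir y := Iff.rfl

omit [IsOrderedAddMonoid Λ] in
lemma K0_le_G0 : K0 Λ ≤ G0 Λ := fun _ h => h.1

omit [IsOrderedAddMonoid Λ] in
lemma dir_tr {a : Λ →₀ ℤ} (ha : ∀ μ, 0 < μ → a μ = 0) (x : Option (Λ →₀ ℤ)) :
    dir (tr a x) = (dir x).map (fun t => t + a 0) := by
  cases x with
  | none => rfl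
  | some x =>
    rw [tr_some]
    by_cases h : ∀ μ, 0 < μ → x μ = 0
    · rw [dir_some_of h, dir_some_of]
      · simp
      · intro μ hμ; rw [Finsupp.add_apply, h μ hμ, ha μ hμ, add_zero]
    · push Not at h
      obtain ⟨μ, hμ, h⟩ := h
      rw [dir_some_of_not hμ h, dir_some_of_not (μ := μ) hμ]
      · rfl
      · rw [Finsupp.add_apply, ha μ hμ, add_zero]; exact h

omit [IsOrderedAddMonoid Λ] in
lemma tr_mem_K0 {a : Λ →₀ ℤ} (ha : ∀ μ, 0 < μ → a μ = 0) : tr a ∈ K0 Λ := by
  refine ⟨tr_mem a, ?_⟩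
  intro x y
  rw [dir_tr ha, dir_tr ha]
  constructor
  · intro h
    have hinj : Function.Injective (fun t : ℤ => t + a 0) := fun s t hst => by simpa using hst
    exact Option.map_injective hinj h
  · intro h; rw [h]

lemma dir_invo (x : Option (Λ →₀ ℤ)) : dir (invo x) = Equiv.swap none (some 0) (dir x) := by
  cases x with
  | none =>
    rw [invo_none, dir_none, Equiv.swap_apply_left, dir_some_of (by simp)]
    rfl
  | some x =>
    by_cases hx : x = 0
    · subst hx
      rw [invo_zero, dir_none, dir_some_of (by simp)]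
      simp
    · rw [invo_some hx]
      have hne := shift_ne_zero (-((2 : ℕ) • deg x)) hx
      have hd := deg_shift_inv hx
      rcases lt_trichotomy (deg x) 0 with h | h | h
      · have h1 : dir (some x) = some 0 := by
          rw [dir_eq_some_iff]
          exact ⟨fun μ hμ => apply_eq_zero_of_deg_lt (h.trans hμ), apply_eq_zero_of_deg_lt h⟩
        rw [h1, Equiv.swap_apply_right, dir_eq_none_iff]
        refine ⟨-deg x, neg_pos.2 h, ?_⟩
        rw [← hd]
        exact apply_deg_ne hne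
      · rw [h]
        simp only [smul_zero, neg_zero, shift_zero]
        have h1 : dir (some x) = some (x 0) :=
          dir_some_of (fun μ hμ => apply_eq_zero_of_deg_lt (by rw [h]; exact hμ))
        rw [h1, Equiv.swap_apply_of_ne_of_ne]
        · simp
        · intro h2
          have h3 : x 0 = 0 := Option.some_injective _ h2
          apply apply_deg_ne hx
          rw [h, h3]
      · have h1 : dir (some x) = none := by
          rw [dir_eq_none_iff]; exact ⟨deg x, h, apply_deg_ne hx⟩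
        rw [h1, Equiv.swap_apply_left, dir_eq_some_iff]
        constructor
        · intro μ hμ; apply apply_eq_zero_of_deg_lt; rw [hd]; exact (neg_lt_zero.2 h).trans hμ
        · apply apply_eq_zero_of_deg_lt; rw [hd]; exact neg_lt_zero.2 h

lemma invo_mem_K0 : invo ∈ K0 Λ := by
  refine ⟨invo_mem, ?_⟩
  intro x y
  rw [dir_invo, dir_invo]
  exact (Equiv.swap none (some 0)).injective.eq_iff

/-- The inversion fixes the points in the other directions. -/
lemma invo_fix {x : Option (Λ →₀ ℤ)} (h1 : dir x ≠ none) (h2 : dir x ≠ some 0) : invo x = x := by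
  cases x with
  | none => exact absurd rfl h1
  | some x =>
    have h3 : ∀ μ, 0 < μ → x μ = 0 := by
      by_contra h
      push Not at h
      exact h1 (dir_eq_none_iff.2 h)
    have h4 : x 0 ≠ 0 := by
      intro h; apply h2; rw [dir_some_of h3, h]
    have hx : x ≠ 0 := by rintro rfl; simp at h4
    have hd : deg x = 0 := deg_eq h4 h3
    rw [invo_some hx, hd]
    simp

lemma exists_K0_to_none (u : Option (Λ →₀ ℤ)) : ∃ k ∈ K0 Λ, k u = none := by
  have key : ∀ x : Λ →₀ ℤ, (∀ μ, 0 < μ → x μ = 0) → ∃ k ∈ K0 Λ, k (some x) = none := by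
    intro x hx
    refine ⟨invo * tr (-x), (K0 Λ).mul_mem invo_mem_K0 (tr_mem_K0 ?_), ?_⟩
    · intro μ hμ; rw [Finsupp.neg_apply, hx μ hμ, neg_zero]
    · rw [Equiv.Perm.mul_apply, tr_some, add_neg_cancel, invo_zero]
  cases u with
  | none => exact ⟨1, (K0 Λ).one_mem, rfl⟩
  | some x =>
    by_cases hx : ∀ μ, 0 < μ → x μ = 0
    · exact key x hx
    · push Not at hx
      have hx0 : x ≠ 0 := by
        rintro rfl; obtain ⟨μ, _, h⟩ := hx; simp at h
      obtain ⟨k, hk, hk'⟩ := key (shift (-((2 : ℕ) • deg x)) x) (by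
        intro μ hμ
        have h := dir_invo (some x)
        rw [dir_eq_none_iff.2 hx, Equiv.swap_apply_left, invo_some hx0, dir_eq_some_iff] at h
        exact h.1 μ hμ)
      refine ⟨k * invo, (K0 Λ).mul_mem hk invo_mem_K0, ?_⟩
      rw [Equiv.Perm.mul_apply, invo_some hx0, hk']

lemma exists_K0_to_pair {x y : Option (Λ →₀ ℤ)} (h : dir x ≠ dir y) :
    ∃ k ∈ K0 Λ, k y = none ∧ k x = some 0 := by
  obtain ⟨k, hk, hky⟩ := exists_K0_to_none y
  have h1 : dir (k x) ≠ none := by
    intro h1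
    apply h
    rw [← hk.2, h1, hky]; rfl
  cases hkx : k x with
  | none => rw [hkx] at h1; exact absurd rfl h1
  | some u =>
    rw [hkx] at h1
    have hu : ∀ μ, 0 < μ → u μ = 0 := by
      by_contra h2
      push Not at h2
      exact h1 (dir_eq_none_iff.2 h2)
    refine ⟨tr (-u) * k, (K0 Λ).mul_mem (tr_mem_K0 ?_) hk, ?_, ?_⟩
    · intro μ hμ; rw [Finsupp.neg_apply, hu μ hμ, neg_zero]
    · rw [Equiv.Perm.mul_apply, hky, tr_none]
    · rw [Equiv.Perm.mul_apply, hkx, tr_some, add_neg_cancel]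

/-- The rigid swaps. -/
lemma hasSwaps_G0 : HasSwaps dir (G0 Λ) := by
  intro x y hxy
  obtain ⟨k, hk, hky, hkx⟩ := exists_K0_to_pair hxy
  refine ⟨k⁻¹ * invo * k, (G0 Λ).mul_mem ((G0 Λ).mul_mem ((G0 Λ).inv_mem hk.1) invo_mem) hk.1, ?_, ?_,
    ?_⟩
  · simp only [Equiv.Perm.mul_apply]
    rw [hkx, invo_zero, ← hky, perm_inv_apply]
  · simp only [Equiv.Perm.mul_apply]
    rw [hky, invo_none, ← hkx, perm_inv_apply]
  · intro z hzx hzy
    simp only [Equiv.Perm.mul_apply]
    rw [invo_fix, perm_inv_apply]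
    · intro h; apply hzy; rw [← hk.2, h, hky]; rfl
    · intro h; apply hzx; rw [← hk.2, h, hkx, dir_some_of (by simp)]; rfl

lemma HasSwaps.mono {X D : Type*} {dir : X → D} {H H' : Subgroup (Equiv.Perm X)}
    (h : HasSwaps dir H) (hle : H ≤ H') : HasSwaps dir H' := by
  intro x y hxy
  obtain ⟨g, hg, hg'⟩ := h x y hxy
  exact ⟨g, hle hg, hg'⟩

end Pool.Agent.MP_6aa20f_lc
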