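import Mathlib
import Pool.Agent.MP_6aa20f_lc.Tree

/-!
Analysis of an arbitrary group `H` containing `G0`.
-/

namespace Pool.Agent.MP_6aa20f_lc

variable {Λ : Type*} [AddCommGroup Λ] [LinearOrder Λ] [IsOrderedAddMonoid Λ]

/-- The point at (logarithmic) distance `-l` from `0`. -/
noncomputable def wpt (l : Λ) : Λ →₀ ℤ := Finsupp.single (-l) 1

omit [LinearOrder Λ] [IsOrderedAddMonoid Λ] in
lemma wpt_ne_zero (l : Λ) : wpt l ≠ 0 := by simp [wpt]

omit [IsOrderedAddMonoid Λ] in
lemma deg_wpt (l : Λ) : deg (wpt l) = -l := deg_single _ one_ne_zero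

omit [IsOrderedAddMonoid Λ] in
lemma dir_of_deg_neg {c : Λ →₀ ℤ} (h : deg c < 0) : dir (some c) = some 0 := by
  rw [dir_eq_some_iff]
  exact ⟨fun μ hμ => apply_eq_zero_of_deg_lt (h.trans hμ), apply_eq_zero_of_deg_lt h⟩

omit [IsOrderedAddMonoid Λ] in
@[simp] lemma dir_zero : dir (some (0 : Λ →₀ ℤ)) = some 0 := dir_some_of (by simp)

lemma dir_wpt {l : Λ} (hl : 0 < l) : dir (some (wpt l)) = some 0 := by
  apply dir_of_deg_neg; rw [deg_wpt]; exact neg_lt_zero.2 hl

lemma hom1 {c c' : Λ →₀ ℤ} (hc : c ≠ 0) (hc' : c' ≠ 0) (h : deg c = deg c')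
    (hneg : deg c < 0) (hlead : c (deg c) ≠ c' (deg c)) :
    ∃ k ∈ G0 Λ, k (some c') = some c ∧ k (some 0) = some 0 ∧ ∀ z, dir z ≠ some 0 → k z = z := by
  set ν := deg c with hν
  have hd : ∀ b : Λ →₀ ℤ, deg b = ν → dir (some (shift (-ν) b)) = some (b ν) := by
    intro b hb
    rw [dir_eq_some_iff]
    constructor
    · intro μ hμ
      rw [shift_apply]
      apply apply_eq_zero_of_deg_lt
      rw [hb, sub_neg_eq_add]
      exact lt_add_of_pos_left _ hμ
    · simp
  have h1 := hd c hν.symm
  have h2 := hd c' h.symm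
  obtain ⟨g, hg, hg1, hg2, hg3⟩ := hasSwaps_G0 (some (shift (-ν) c)) (some (shift (-ν) c'))
    (by rw [h1, h2]; intro h'; exact hlead (Option.some_injective _ h'))
  have hcν : c ν ≠ 0 := by rw [hν]; exact apply_deg_ne hc
  have hc'ν : c' ν ≠ 0 := by rw [h]; exact apply_deg_ne hc'
  refine ⟨(sh (-ν))⁻¹ * g * sh (-ν), (G0 Λ).mul_mem ((G0 Λ).mul_mem ((G0 Λ).inv_mem (sh_mem _)) hg)
    (sh_mem _), ?_, ?_, ?_⟩
  · simp only [Equiv.Perm.mul_apply, sh_some]
    rw [hg2, ← sh_some, perm_inv_apply]
  · simp only [Equiv.Perm.mul_apply]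
    rw [hg3, perm_inv_apply]
    · rw [h1]; simp only [sh_some, map_zero, dir_zero]
      intro h'; exact hcν (Option.some_injective _ h').symm
    · rw [h2]; simp only [sh_some, map_zero, dir_zero]
      intro h'; exact hc'ν (Option.some_injective _ h').symm
  · intro z hz
    simp only [Equiv.Perm.mul_apply]
    have hzn : dir (sh (-ν) z) = none := by
      cases z with
      | none => simp
      | some x =>
        rw [sh_some, dir_eq_none_iff]
        by_cases hx : ∀ μ, 0 < μ → x μ = 0
        · have h0 : x 0 ≠ 0 := by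
            intro h0; apply hz; rw [dir_some_of hx, h0]
          exact ⟨-ν, neg_pos.2 hneg, by simpa using h0⟩
        · push Not at hx
          obtain ⟨μ, hμ, hx⟩ := hx
          refine ⟨μ - ν, ?_, by simpa using hx⟩
          rw [sub_pos]; exact hneg.trans hμ
    rw [hg3, perm_inv_apply]
    · rw [hzn, h1]; simp
    · rw [hzn, h2]; simp

lemma hom {c c' : Λ →₀ ℤ} (hc : c ≠ 0) (hc' : c' ≠ 0) (h : deg c = deg c')
    (hneg : deg c < 0) :
    ∃ k ∈ G0 Λ, k (some c') = some c ∧ k (some 0) = some 0 ∧ ∀ z, dir z ≠ some 0 → k z = z := by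
  by_cases hlead : c (deg c) = c' (deg c)
  · obtain ⟨m, hm0, hm1⟩ : ∃ m : ℤ, m ≠ 0 ∧ m ≠ c (deg c) := by
      by_cases h1 : c (deg c) = 1
      · exact ⟨2, by norm_num, by rw [h1]; norm_num⟩
      · exact ⟨1, by norm_num, fun h' => h1 h'.symm⟩
    set c'' : Λ →₀ ℤ := Finsupp.single (deg c) m with hc''
    have hc''0 : c'' ≠ 0 := by simp [hc'', hm0]
    have hdeg : deg c'' = deg c := deg_single _ hm0
    obtain ⟨k1, hk1, h11, h12, h13⟩ := hom1 hc hc''0 hdeg.symm hneg
      (by rw [hc'']; simp only [Finsupp.single_eq_same]; exact fun h' => hm1 h'.symm)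
    obtain ⟨k2, hk2, h21, h22, h23⟩ := hom1 hc''0 hc' (hdeg.trans h) (by rw [hdeg]; exact hneg)
      (by rw [hdeg, hc'']; simp only [Finsupp.single_eq_same]; rw [← hlead]; exact hm1)
    refine ⟨k1 * k2, (G0 Λ).mul_mem hk1 hk2, ?_, ?_, ?_⟩
    · rw [Equiv.Perm.mul_apply, h21, h11]
    · rw [Equiv.Perm.mul_apply, h22, h12]
    · intro z hz; rw [Equiv.Perm.mul_apply, h23 z hz, h13 z hz]
  · exact hom1 hc hc' h hneg hlead

section H

variable {H : Subgroup (Equiv.Perm (Option (Λ →₀ ℤ)))}

omit [IsOrderedAddMonoid Λ] in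
lemma ogood_of_K0 (hH : G0 Λ ≤ H) {k : Equiv.Perm (Option (Λ →₀ ℤ))} (hk : k ∈ K0 Λ)
    {u v : Option (Λ →₀ ℤ)} (h : OGood dir H ({k u, k v} : Set _)) :
    OGood dir H ({u, v} : Set _) := by
  classical
  intro S hS
  apply Good.of_image (hH hk.1)
  have h1 : Fresh dir ((S.image k : Finset _) : Set (Option (Λ →₀ ℤ))) ({k u, k v} : Set _) := by
    constructor
    · intro a ha b hb hab
      simp only [Finset.coe_image, Set.mem_image, Finset.mem_coe] at ha hb
      obtain ⟨x, hx, rfl⟩ := ha
      obtain ⟨y, hy, rfl⟩ := hb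
      rw [hk.2] at hab
      rw [hS.1 hx hy hab]
    · intro a ha b hb
      simp only [Finset.coe_image, Set.mem_image, Finset.mem_coe] at ha
      obtain ⟨x, hx, rfl⟩ := ha
      simp only [Set.mem_insert_iff, Set.mem_singleton_iff] at hb
      rcases hb with rfl | rfl
      · intro h'; rw [hk.2] at h'; exact hS.2 x hx u (by simp) h'
      · intro h'; rw [hk.2] at h'; exact hS.2 x hx v (by simp) h'
  have h2 := h (S.image k) h1
  rw [Set.image_union, Set.image_pair]
  rwa [Finset.coe_image] at h2

lemma ogood_congr (hH : G0 Λ ≤ H) {c c' : Λ →₀ ℤ} (hc : c ≠ 0) (hc' : c' ≠ 0)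
    (hdeg : deg c = deg c') (hneg : deg c < 0)
    (h : OGood dir H ({some 0, some c} : Set _)) :
    OGood dir H ({some 0, some c'} : Set _) := by
  classical
  obtain ⟨k, hk, hk1, hk2, hk3⟩ := hom hc hc' hdeg hneg
  intro S hS
  apply Good.of_image (hH hk)
  have hS0 : ∀ s ∈ S, dir s ≠ some 0 := by
    intro s hs h'
    exact hS.2 s hs (some 0) (by simp) (by rw [h', dir_zero])
  have hf : Fresh dir (S : Set (Option (Λ →₀ ℤ))) ({some 0, some c} : Set _) := by
    refine ⟨hS.1, ?_⟩
    intro s hs z hz
    simp only [Set.mem_insert_iff, Set.mem_singleton_iff] at hz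
    rcases hz with rfl | rfl
    · rw [dir_zero]; exact hS0 s hs
    · rw [dir_of_deg_neg hneg]; exact hS0 s hs
  apply (h S hf).mono
  rintro _ ⟨x, hx, rfl⟩
  rcases hx with hx | hx
  · simp only [Set.mem_insert_iff, Set.mem_singleton_iff] at hx
    rcases hx with rfl | rfl
    · left; rw [hk2]; simp
    · left; rw [hk1]; simp
  · right
    rw [hk3 x (hS0 x hx)]; exact hx

/-- The set of good distances. -/
def DD (H : Subgroup (Equiv.Perm (Option (Λ →₀ ℤ)))) (l : Λ) : Prop :=
  OGood dir H ({some 0, some (wpt l)} : Set _)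

/-- `single 0 a` as a point of the line. -/
noncomputable def ept (a : ℤ) : Λ →₀ ℤ := Finsupp.single 0 a

omit [IsOrderedAddMonoid Λ] in
lemma dir_ept (a : ℤ) : dir (some (ept a : Λ →₀ ℤ)) = some a := by
  rw [dir_eq_some_iff, ept]
  refine ⟨?_, by simp⟩
  intro μ hμ; rw [Finsupp.single_apply, if_neg (ne_of_lt hμ)]

lemma DD_add (hH : G0 Λ ≤ H) {l m : Λ} (hl : 0 < l) (hm : 0 < m) (h1 : DD H l) (h2 : DD H m) :
    DD H (l + m) := by
  classical
  have hsw := hasSwaps_G0.mono hH
  set e1 : Λ →₀ ℤ := ept 1 with he1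
  set y : Λ →₀ ℤ := e1 + wpt m with hy
  have hde1 : dir (some e1) = some 1 := dir_ept 1
  have hdy : dir (some y) = some 1 := by
    rw [dir_eq_some_iff]
    have h3 := dir_eq_some_iff.1 hde1
    have h4 := dir_eq_some_iff.1 (dir_wpt hm)
    constructor
    · intro μ hμ; rw [hy, Finsupp.add_apply, h3.1 μ hμ, h4.1 μ hμ, add_zero]
    · rw [hy, Finsupp.add_apply, h3.2, h4.2, add_zero]
  have hpair : OGood dir H ({some e1, some y} : Set _) := by
    apply ogood_of_K0 hH (k := tr (-e1))
    · apply tr_mem_K0
      intro μ hμ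
      rw [Finsupp.neg_apply, (dir_eq_some_iff.1 hde1).1 μ hμ, neg_zero]
    · have : (y + -e1) = wpt m := by rw [hy]; abel
      simp only [tr_some, add_neg_cancel, this]
      exact h2
  have hU : OGood dir H ((({some 0, some (wpt l), some e1, some y} :
      Finset (Option (Λ →₀ ℤ)))) : Set (Option (Λ →₀ ℤ))) := by
    apply ogood_of_pairs dir_surjective hsw
    intro u hu v hv huv
    by_cases hd : dir u = dir v
    · simp only [Finset.mem_insert, Finset.mem_singleton] at hu hv
      rcases hu with rfl | rfl | rfl | rfl <;> rcases hv with rfl | rfl | rfl | rfl <;>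
        simp only [dir_zero, dir_wpt hl, hde1, hdy] at hd
      · exact absurd rfl huv
      · exact h1
      · simp at hd
      · simp at hd
      · rw [Set.pair_comm]; exact h1
      · exact absurd rfl huv
      · simp at hd
      · simp at hd
      · simp at hd
      · simp at hd
      · exact absurd rfl huv
      · exact hpair
      · simp at hd
      · simp at hd
      · rw [Set.pair_comm]; exact hpair
      · exact absurd rfl huv
    · exact ogood_pair_of_ne hd
  have hgood : Good dir H ({some 0, some (wpt l), some e1, some y} : Set (Option (Λ →₀ ℤ))) := by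
    have := hU ∅ ⟨by simp, by simp⟩
    apply this.mono
    intro x hx
    left
    simpa using hx
  -- move
  obtain ⟨G, hG⟩ : ∃ G : Equiv.Perm (Option (Λ →₀ ℤ)), G = sh (-m) * tr e1 * invo * tr (-e1) :=
    ⟨_, rfl⟩
  have hg : G ∈ H := by
    rw [hG]
    apply hH
    exact (G0 Λ).mul_mem ((G0 Λ).mul_mem ((G0 Λ).mul_mem (sh_mem _) (tr_mem _)) invo_mem) (tr_mem _)
  have hgood2 := hgood.image hg
  set y' : Λ →₀ ℤ := ept 1 + Finsupp.single (-m) 1 with hy'
  have hgood3 : Good dir H ({none, some y', some 0, some (wpt (l + m))} :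
      Set (Option (Λ →₀ ℤ))) := by
    apply hgood2.mono
    have hne1 : dir (some (-e1)) = some (-1) := by
      have h3 := dir_eq_some_iff.1 hde1
      rw [dir_eq_some_iff]
      refine ⟨fun μ hμ => by rw [Finsupp.neg_apply, h3.1 μ hμ, neg_zero], ?_⟩
      rw [Finsupp.neg_apply, h3.2]
    have hne2 : dir (some (wpt l + -e1)) = some (-1) := by
      have h3 := dir_eq_some_iff.1 hde1
      have h4 := dir_eq_some_iff.1 (dir_wpt hl)
      rw [dir_eq_some_iff]
      refine ⟨fun μ hμ => by
        rw [Finsupp.add_apply, Finsupp.neg_apply, h3.1 μ hμ, h4.1 μ hμ, neg_zero, add_zero], ?_⟩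
      rw [Finsupp.add_apply, Finsupp.neg_apply, h3.2, h4.2, zero_add]
    have e_none : G (some e1) = none := by
      rw [hG]
      simp only [Equiv.Perm.mul_apply, tr_some, add_neg_cancel, invo_zero, tr_none, sh_none]
    have e_zero : G (some 0) = some 0 := by
      rw [hG]
      simp only [Equiv.Perm.mul_apply, tr_some, zero_add]
      rw [invo_fix (by rw [hne1]; simp) (by rw [hne1]; simp)]
      simp
    have e_w : G (some (wpt l)) = some (wpt (l + m)) := by
      rw [hG]
      simp only [Equiv.Perm.mul_apply, tr_some]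
      rw [invo_fix (by rw [hne2]; simp) (by rw [hne2]; simp)]
      simp only [tr_some, neg_add_cancel_right, sh_some]
      rw [wpt, wpt, shift_single]
      congr 2; abel
    have e_y : G (some y) = some y' := by
      have h5 : (y + -e1) = wpt m := by rw [hy]; abel
      rw [hG]
      simp only [Equiv.Perm.mul_apply, tr_some, h5]
      rw [invo_some (wpt_ne_zero m), tr_some, sh_some, deg_wpt, map_add]
      rw [wpt, shift_single, shift_single, he1, ept, shift_single, hy', ept]
      congr 3
      · rw [two_nsmul]; abel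
      · abel
    intro x hx
    simp only [Set.mem_insert_iff, Set.mem_singleton_iff] at hx
    rcases hx with rfl | rfl | rfl | rfl
    · exact ⟨some e1, by simp, e_none⟩
    · exact ⟨some y, by simp, e_y⟩
    · exact ⟨some 0, by simp, e_zero⟩
    · exact ⟨some (wpt l), by simp, e_w⟩
  have hdy' : dir (some y') = some 1 := by
    have h3 := dir_eq_some_iff.1 (dir_ept (Λ := Λ) 1)
    have h4 := dir_eq_some_iff.1 (dir_wpt hm)
    rw [dir_eq_some_iff, hy']
    rw [wpt] at h4
    refine ⟨fun μ hμ => by rw [Finsupp.add_apply, h3.1 μ hμ, h4.1 μ hμ, add_zero], ?_⟩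
    rw [Finsupp.add_apply, h3.2, h4.2, add_zero]
  apply ogood_pair_of_good dir_surjective hsw (x := none) (y := some y')
  · rw [hdy']; simp
  · simp
  · rw [hdy']; simp
  · rw [dir_zero, dir_wpt (add_pos hl hm)]
  · intro h; exact wpt_ne_zero _ (Option.some_injective _ h).symm
  · exact hgood3

lemma DD_convex (hH : G0 Λ ≤ H) {l m : Λ} (hm : 0 < m) (hml : m < l) (h : DD H l) :
    DD H m := by
  classical
  have hsw := hasSwaps_G0.mono hH
  have hl : 0 < l := hm.trans hml
  set s : ℤ → Option (Λ →₀ ℤ) := fun a => some (ept a) with hs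
  have hds : ∀ a, dir (s a) = some a := fun a => dir_ept a
  have hfresh : Fresh dir ((({s 1, s 2, s 3} : Finset (Option (Λ →₀ ℤ)))) : Set _)
      ({some 0, some (wpt l)} : Set (Option (Λ →₀ ℤ))) := by
    constructor
    · intro a ha b hb hab
      simp only [Finset.coe_insert, Finset.coe_singleton, Set.mem_insert_iff,
        Set.mem_singleton_iff] at ha hb
      rcases ha with rfl | rfl | rfl <;> rcases hb with rfl | rfl | rfl <;>
        simp [hds] at hab ⊢
    · intro a ha b hb
      simp only [Finset.coe_insert, Finset.coe_singleton, Set.mem_insert_iff,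
        Set.mem_singleton_iff] at ha hb
      rcases ha with rfl | rfl | rfl <;> rcases hb with rfl | rfl <;>
        simp [hds, dir_wpt hl]
  obtain ⟨k, hk, hinj⟩ := h _ hfresh
  have mem0 : (some 0 : Option (Λ →₀ ℤ)) ∈ ({some 0, some (wpt l)} ∪
      ((({s 1, s 2, s 3} : Finset (Option (Λ →₀ ℤ)))) : Set _) : Set (Option (Λ →₀ ℤ))) := by simp
  have memw : (some (wpt l) : Option (Λ →₀ ℤ)) ∈ ({some 0, some (wpt l)} ∪
      ((({s 1, s 2, s 3} : Finset (Option (Λ →₀ ℤ)))) : Set _) : Set (Option (Λ →₀ ℤ))) := by simp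
  have mems : ∀ a : ℤ, (a = 1 ∨ a = 2 ∨ a = 3) → s a ∈ ({some 0, some (wpt l)} ∪
      ((({s 1, s 2, s 3} : Finset (Option (Λ →₀ ℤ)))) : Set _) : Set (Option (Λ →₀ ℤ))) := by
    intro a ha
    rcases ha with rfl | rfl | rfl <;> simp
  have sne0 : ∀ a : ℤ, (a = 1 ∨ a = 2 ∨ a = 3) → s a ≠ some 0 := by
    intro a ha h'
    have := hds a
    rw [h', dir_zero] at this
    have := Option.some_injective _ this
    omega
  have snew : ∀ a : ℤ, (a = 1 ∨ a = 2 ∨ a = 3) → s a ≠ some (wpt l) := by
    intro a ha h'
    have := hds a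
    rw [h', dir_wpt hl] at this
    have := Option.some_injective _ this
    omega
  have sinj : ∀ a b : ℤ, s a = s b → a = b := by
    intro a b hab
    have := hds a
    rw [hab, hds] at this
    exact (Option.some_injective _ this).symm
  set u : Option (Λ →₀ ℤ) := some (wpt m) with hu
  have hdu : dir u = some 0 := dir_wpt hm
  by_cases hcase : dir (k u) = dir (k (some 0))
  · -- use `wpt l`
    have hw : dir (k u) ≠ dir (k (some (wpt l))) := by
      rw [hcase]
      intro h'
      have := hinj mem0 memw h'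
      exact wpt_ne_zero _ (Option.some_injective _ this).symm
    have hsne : ∀ a : ℤ, (a = 1 ∨ a = 2 ∨ a = 3) → dir (k (s a)) ≠ dir (k u) := by
      intro a ha h'
      rw [hcase] at h'
      exact sne0 a ha (hinj (mems a ha) mem0 h')
    have hg : Good dir H ({s 1, s 2, some (wpt l), u} : Set (Option (Λ →₀ ℤ))) := by
      refine ⟨k, hk, ?_⟩
      intro a ha b hb hab
      simp only [Set.mem_insert_iff, Set.mem_singleton_iff] at ha hb
      by_cases ha' : a = u
      · by_cases hb' : b = u
        · rw [ha', hb']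
        · exfalso
          rw [ha'] at hab
          rcases hb with rfl | rfl | rfl | rfl
          · exact hsne 1 (by simp) hab.symm
          · exact hsne 2 (by simp) hab.symm
          · exact hw hab
          · exact hb' rfl
      · by_cases hb' : b = u
        · exfalso
          rw [hb'] at hab
          rcases ha with rfl | rfl | rfl | rfl
          · exact hsne 1 (by simp) hab
          · exact hsne 2 (by simp) hab
          · exact hw hab.symm
          · exact ha' rfl
        · apply hinj _ _ hab
          · rcases ha with rfl | rfl | rfl | rfl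
            · exact mems 1 (by simp)
            · exact mems 2 (by simp)
            · exact memw
            · exact absurd rfl ha'
          · rcases hb with rfl | rfl | rfl | rfl
            · exact mems 1 (by simp)
            · exact mems 2 (by simp)
            · exact memw
            · exact absurd rfl hb'
    have hlm : (wpt m : Λ →₀ ℤ) ≠ wpt l := by
      intro h'
      have := congrArg deg h'
      rw [deg_wpt, deg_wpt, neg_inj] at this
      exact (ne_of_lt hml) this
    have hpair : OGood dir H ({some (wpt l), u} : Set (Option (Λ →₀ ℤ))) := by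
      apply ogood_pair_of_good dir_surjective hsw (x := s 1) (y := s 2) _ _ _ _ _ hg
      · simp [hds]
      · simp [hds, dir_wpt hl]
      · simp [hds, dir_wpt hl]
      · rw [hdu, dir_wpt hl]
      · intro h'; exact hlm (Option.some_injective _ h').symm
    have hpair2 : OGood dir H ({some 0, some (wpt m - wpt l)} : Set (Option (Λ →₀ ℤ))) := by
      apply ogood_of_K0 hH (k := tr (wpt l))
      · apply tr_mem_K0
        exact (dir_eq_some_iff.1 (dir_wpt hl)).1
      · simpa using hpair
    have hdeg : deg (wpt m - wpt l : Λ →₀ ℤ) = -m := by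
      rw [deg_sub_of_lt (wpt_ne_zero m), deg_wpt]
      rw [deg_wpt, deg_wpt]; exact neg_lt_neg hml
    apply ogood_congr hH (sub_ne_zero.2 hlm) (wpt_ne_zero m) _ _ hpair2
    · rw [hdeg, deg_wpt]
    · rw [hdeg]; exact neg_lt_zero.2 hm
  · -- use `0`
    obtain ⟨a, b, ha, hb, hab, hak, hbk⟩ : ∃ a b : ℤ, (a = 1 ∨ a = 2 ∨ a = 3) ∧
        (b = 1 ∨ b = 2 ∨ b = 3) ∧ a ≠ b ∧ dir (k (s a)) ≠ dir (k u) ∧
        dir (k (s b)) ≠ dir (k u) := by
      have huniq : ∀ a b : ℤ, (a = 1 ∨ a = 2 ∨ a = 3) → (b = 1 ∨ b = 2 ∨ b = 3) →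
          dir (k (s a)) = dir (k u) → dir (k (s b)) = dir (k u) → a = b := by
        intro a b ha hb h1 h2
        exact sinj a b (hinj (mems a ha) (mems b hb) (h1.trans h2.symm))
      by_cases h1 : dir (k (s 1)) = dir (k u)
      · refine ⟨2, 3, by simp, by simp, by norm_num, ?_, ?_⟩
        · intro h2; have := huniq 1 2 (by simp) (by simp) h1 h2; omega
        · intro h2; have := huniq 1 3 (by simp) (by simp) h1 h2; omega
      · by_cases h2 : dir (k (s 2)) = dir (k u)
        · refine ⟨1, 3, by simp, by simp, by norm_num, h1, ?_⟩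
          intro h3; have := huniq 2 3 (by simp) (by simp) h2 h3; omega
        · exact ⟨1, 2, by simp, by simp, by norm_num, h1, h2⟩
    have hg : Good dir H ({s a, s b, some 0, u} : Set (Option (Λ →₀ ℤ))) := by
      refine ⟨k, hk, ?_⟩
      intro p hp q hq hpq
      simp only [Set.mem_insert_iff, Set.mem_singleton_iff] at hp hq
      by_cases hp' : p = u
      · by_cases hq' : q = u
        · rw [hp', hq']
        · exfalso
          rw [hp'] at hpq
          rcases hq with rfl | rfl | rfl | rfl
          · exact hak hpq.symm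
          · exact hbk hpq.symm
          · exact hcase hpq
          · exact hq' rfl
      · by_cases hq' : q = u
        · exfalso
          rw [hq'] at hpq
          rcases hp with rfl | rfl | rfl | rfl
          · exact hak hpq
          · exact hbk hpq
          · exact hcase hpq.symm
          · exact hp' rfl
        · apply hinj _ _ hpq
          · rcases hp with rfl | rfl | rfl | rfl
            · exact mems a ha
            · exact mems b hb
            · exact mem0
            · exact absurd rfl hp'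
          · rcases hq with rfl | rfl | rfl | rfl
            · exact mems a ha
            · exact mems b hb
            · exact mem0
            · exact absurd rfl hq'
    apply ogood_pair_of_good dir_surjective hsw (x := s a) (y := s b) _ _ _ _ _ hg
    · rw [hds, hds]; intro h'; exact hab (Option.some_injective _ h')
    · rw [hds, dir_zero]; intro h'; have := Option.some_injective _ h'; omega
    · rw [hds, dir_zero]; intro h'; have := Option.some_injective _ h'; omega
    · rw [hdu, dir_zero]
    · intro h'; exact wpt_ne_zero _ (Option.some_injective _ h').symm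

/-- If all distances are good, then all pairs are good. -/
lemma all_pairs_of_DD (hH : G0 Λ ≤ H) (h : ∀ l : Λ, 0 < l → DD H l)
    (u v : Option (Λ →₀ ℤ)) (huv : u ≠ v) : OGood dir H ({u, v} : Set _) := by
  by_cases hd : dir u = dir v
  · obtain ⟨k, hk, hku⟩ := exists_K0_to_none u
    obtain ⟨G, hG⟩ : ∃ G : Equiv.Perm (Option (Λ →₀ ℤ)), G = invo * k := ⟨_, rfl⟩
    have hk' : G ∈ K0 Λ := by rw [hG]; exact (K0 Λ).mul_mem invo_mem_K0 hk
    have hku' : G u = some 0 := by rw [hG, Equiv.Perm.mul_apply, hku, invo_none]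
    apply ogood_of_K0 hH hk'
    have hdv : dir (G v) = some 0 := by
      rw [← dir_zero (Λ := Λ), ← hku', hk'.2]; exact hd.symm
    rw [hku']
    cases hv : G v with
    | none => rw [hv] at hdv; simp at hdv
    | some c =>
      rw [hv] at hdv
      have hc : c ≠ 0 := by
        rintro rfl
        apply huv
        apply G.injective
        rw [hku', hv]
      have hneg : deg c < 0 := by
        rw [dir_eq_some_iff] at hdv
        by_contra h'
        rw [not_lt] at h'
        apply apply_deg_ne hc
        rcases h'.lt_or_eq with h' | h'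
        · exact hdv.1 _ h'
        · rw [← h']; exact hdv.2
      apply ogood_congr hH (wpt_ne_zero (-deg c)) hc _ _ (h (-deg c) (neg_pos.2 hneg))
      · rw [deg_wpt, neg_neg]
      · rw [deg_wpt, neg_neg]; exact hneg
  · exact ogood_pair_of_ne hd

end H

end Pool.Agent.MP_6aa20f_lc
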