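import Mathlib
import Pool.Agent.MP_6aa20f_lc.Groups

/-!
The relations `R Δ` (star modulo `Δ`) and their automorphism groups `GR Δ`; good quadruples of an
overgroup of `G0` are exactly the quadruples in some `R Δ`.
-/

namespace Pool.Agent.MP_6aa20f_lc

variable {Λ : Type*} [AddCommGroup Λ] [LinearOrder Λ] [IsOrderedAddMonoid Λ]

/-- The three sums of opposite distances agree modulo `Δ`. -/
def R (Δ : AddSubgroup Λ) (x y z w : Option (Λ →₀ ℤ)) : Prop :=
  (beta x y + beta z w - (beta x z + beta y w) ∈ Δ) ∧
    (beta x z + beta y w - (beta x w + beta y z) ∈ Δ)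

omit [IsOrderedAddMonoid Λ] in
lemma R_swap12 {Δ : AddSubgroup Λ} {x y z w : Option (Λ →₀ ℤ)} (h : R Δ x y z w) :
    R Δ y x z w := by
  obtain ⟨h1, h2⟩ := h
  unfold R
  rw [beta_comm y x, beta_comm y z, beta_comm x w, beta_comm y w, beta_comm x z] at *
  constructor
  · have := Δ.add_mem h1 h2
    convert this using 1
    rw [beta_comm z y, beta_comm w x, beta_comm w y, beta_comm z x]
    abel
  · have := Δ.neg_mem h2
    convert this using 1
    rw [beta_comm z y, beta_comm w x, beta_comm w y, beta_comm z x]
    abel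

omit [IsOrderedAddMonoid Λ] in
lemma R_swap23 {Δ : AddSubgroup Λ} {x y z w : Option (Λ →₀ ℤ)} (h : R Δ x y z w) :
    R Δ x z y w := by
  obtain ⟨h1, h2⟩ := h
  unfold R
  constructor
  · have := Δ.neg_mem h1
    convert this using 1
    abel
  · have := Δ.add_mem h1 h2
    convert this using 1
    rw [beta_comm z y]
    abel

omit [IsOrderedAddMonoid Λ] in
lemma R_swap34 {Δ : AddSubgroup Λ} {x y z w : Option (Λ →₀ ℤ)} (h : R Δ x y z w) :
    R Δ x y w z := by
  obtain ⟨h1, h2⟩ := h
  unfold R
  constructor
  · have := Δ.add_mem h1 h2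
    convert this using 1
    rw [beta_comm w z]
    abel
  · have := Δ.neg_mem h2
    convert this using 1
    abel

lemma Dist4.swap12 {X : Type*} {x y z w : X} (h : Dist4 x y z w) : Dist4 y x z w := by
  obtain ⟨h1, h2, h3, h4, h5, h6⟩ := h
  exact ⟨h1.symm, h4, h5, h2, h3, h6⟩

lemma Dist4.swap23 {X : Type*} {x y z w : X} (h : Dist4 x y z w) : Dist4 x z y w := by
  obtain ⟨h1, h2, h3, h4, h5, h6⟩ := h
  exact ⟨h2, h1, h3, h4.symm, h6, h5⟩

lemma Dist4.swap34 {X : Type*} {x y z w : X} (h : Dist4 x y z w) : Dist4 x y w z := by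
  obtain ⟨h1, h2, h3, h4, h5, h6⟩ := h
  exact ⟨h1, h3, h2, h5, h4, h6.symm⟩

omit [IsOrderedAddMonoid Λ] in
lemma R_G0 {Δ : AddSubgroup Λ} {g : Equiv.Perm (Option (Λ →₀ ℤ))} (hg : g ∈ G0 Λ)
    {x y z w : Option (Λ →₀ ℤ)} (hd : Dist4 x y z w) :
    R Δ (g x) (g y) (g z) (g w) ↔ R Δ x y z w := by
  have h1 : cr (g x) (g y) (g z) (g w) = cr x y z w := hg _ _ _ _ hd
  have h2 : cr (g x) (g w) (g y) (g z) = cr x w y z := hg _ _ _ _ hd.swap34.swap23
  unfold cr at h1 h2
  unfold R
  have e1 : beta (g x) (g y) + beta (g z) (g w) - (beta (g x) (g z) + beta (g y) (g w)) =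
      beta x y + beta z w - (beta x z + beta y w) := by
    rw [beta_comm (g z) (g w), beta_comm (g y) (g w), beta_comm z w, beta_comm y w]
    calc _ = beta (g x) (g y) + beta (g w) (g z) - beta (g x) (g z) - beta (g w) (g y) := by abel
      _ = _ := h2
      _ = _ := by abel
  have e2 : beta (g x) (g z) + beta (g y) (g w) - (beta (g x) (g w) + beta (g y) (g z)) =
      beta x z + beta y w - (beta x w + beta y z) := by
    calc _ = beta (g x) (g z) + beta (g y) (g w) - beta (g x) (g w) - beta (g y) (g z) := by abel
      _ = _ := h1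
      _ = _ := by abel
  rw [e1, e2]

/-- The automorphism group of the relation `R Δ` (on quadruples of distinct points). -/
def GR (Δ : AddSubgroup Λ) : Subgroup (Equiv.Perm (Option (Λ →₀ ℤ))) where
  carrier := {g | ∀ x y z w, Dist4 x y z w → (R Δ (g x) (g y) (g z) (g w) ↔ R Δ x y z w)}
  one_mem' := by intro x y z w _; rfl
  mul_mem' := by
    intro g h hg hh x y z w hd
    rw [Equiv.Perm.mul_apply, Equiv.Perm.mul_apply, Equiv.Perm.mul_apply, Equiv.Perm.mul_apply,
      hg _ _ _ _ (hd.map h), hh _ _ _ _ hd]
  inv_mem' := by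
    intro g hg x y z w hd
    have := hg _ _ _ _ (hd.map g⁻¹)
    simp only [perm_apply_inv] at this
    exact this.symm

omit [IsOrderedAddMonoid Λ] in
lemma G0_le_GR (Δ : AddSubgroup Λ) : G0 Λ ≤ GR Δ := fun _ hg _ _ _ _ hd => R_G0 hg hd

omit [IsOrderedAddMonoid Λ] in
lemma GR_closed (Δ : AddSubgroup Λ) (σ : Equiv.Perm (Option (Λ →₀ ℤ)))
    (h : ∀ A : Finset (Option (Λ →₀ ℤ)), ∃ g ∈ GR Δ, ∀ a ∈ A, g a = σ a) : σ ∈ GR Δ := by
  classical
  intro x y z w hd
  obtain ⟨g, hg, hg'⟩ := h {x, y, z, w}
  rw [← hg' x (by simp), ← hg' y (by simp), ← hg' z (by simp), ← hg' w (by simp)]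
  exact hg x y z w hd

omit [IsOrderedAddMonoid Λ] in
lemma G0_closed (σ : Equiv.Perm (Option (Λ →₀ ℤ)))
    (h : ∀ A : Finset (Option (Λ →₀ ℤ)), ∃ g ∈ G0 Λ, ∀ a ∈ A, g a = σ a) : σ ∈ G0 Λ := by
  classical
  intro x y z w hd
  obtain ⟨g, hg, hg'⟩ := h {x, y, z, w}
  rw [← hg' x (by simp), ← hg' y (by simp), ← hg' z (by simp), ← hg' w (by simp)]
  exact hg x y z w hd

/-- Induction principle for statements about quadruples of distinct points. -/
lemma quad_induction (P : Option (Λ →₀ ℤ) → Option (Λ →₀ ℤ) → Option (Λ →₀ ℤ) →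
      Option (Λ →₀ ℤ) → Prop)
    (hG : ∀ g ∈ G0 Λ, ∀ x y z w, Dist4 x y z w → P (g x) (g y) (g z) (g w) → P x y z w)
    (h23 : ∀ x y z w, Dist4 x y z w → P x y z w → P x z y w)
    (h34 : ∀ x y z w, Dist4 x y z w → P x y z w → P x y w z)
    (hbase : ∀ a c : Λ →₀ ℤ, a ≠ 0 → c ≠ 0 → a ≠ c → deg a = 0 → deg (a - c) = 0 → deg c ≤ 0 →
      P none (some a) (some 0) (some c)) :
    ∀ x y z w, Dist4 x y z w → P x y z w := by
  -- first the case of a closest pair `z, w`
  have key : ∀ a b c : Λ →₀ ℤ, a ≠ b → a ≠ c → b ≠ c → deg (b - c) ≤ deg (a - b) →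
      deg (b - c) ≤ deg (a - c) → P none (some a) (some b) (some c) := by
    intro a b c hab hac hbc h1 h2
    have heq : deg (a - b) = deg (a - c) := by
      rcases lt_trichotomy (deg (a - b)) (deg (a - c)) with h | h | h
      · exfalso
        have : deg ((a - c) - (a - b)) = deg (a - c) := deg_sub_of_lt (sub_ne_zero.2 hac) h
        rw [sub_sub_sub_cancel_left] at this
        rw [this] at h1
        exact absurd h (not_lt.2 h1)
      · exact h
      · exfalso
        have : deg ((a - b) - (a - c)) = deg (a - b) := deg_sub_of_lt (sub_ne_zero.2 hab) h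
        rw [sub_sub_sub_cancel_left, deg_sub_comm] at this
        rw [this] at h2
        exact absurd h (not_lt.2 h2)
    have hg : sh (-deg (a - b)) * tr (-b) ∈ G0 Λ := (G0 Λ).mul_mem (sh_mem _) (tr_mem _)
    apply hG _ hg
    · refine ⟨by simp, by simp, by simp, ?_, ?_, ?_⟩ <;> intro h <;>
        first
        | exact hab (Option.some_injective _ h)
        | exact hac (Option.some_injective _ h)
        | exact hbc (Option.some_injective _ h)
    · simp only [Equiv.Perm.mul_apply, tr_none, tr_some, sh_none, sh_some, add_neg_cancel, map_zero]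
      have hab' : a + -b ≠ 0 := by rw [← sub_eq_add_neg]; exact sub_ne_zero.2 hab
      have hcb' : c + -b ≠ 0 := by rw [← sub_eq_add_neg]; exact sub_ne_zero.2 hbc.symm
      have hac' : (a + -b) - (c + -b) = a - c := by abel
      apply hbase
      · exact shift_ne_zero _ hab'
      · exact shift_ne_zero _ hcb'
      · intro h
        have := (shift (-deg (a - b))).injective h
        exact hac (by simpa using this)
      · rw [deg_shift _ hab', ← sub_eq_add_neg a b, add_neg_cancel]
      · rw [← map_sub, hac', deg_shift _ (sub_ne_zero.2 hac), heq, add_neg_cancel]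
      · rw [deg_shift _ hcb', ← sub_eq_add_neg c b, deg_sub_comm]
        rw [← sub_eq_add_neg]
        exact sub_nonpos.2 h1
  intro x y z w hd
  obtain ⟨g, hg, hgx⟩ := exists_K0_to_none x
  apply hG g hg.1 x y z w hd
  have hd' := hd.map g
  rw [hgx] at hd' ⊢
  obtain ⟨h1, h2, h3, h4, h5, h6⟩ := hd'
  cases hy : g y with
  | none => exact absurd hy.symm h1
  | some a =>
    cases hz : g z with
    | none => exact absurd hz.symm h2
    | some b =>
      cases hw : g w with
      | none => exact absurd hw.symm h3
      | some c =>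
        rw [hy, hz] at h4
        rw [hy, hw] at h5
        rw [hz, hw] at h6
        have hab : a ≠ b := by rintro rfl; exact h4 rfl
        have hac : a ≠ c := by rintro rfl; exact h5 rfl
        have hbc : b ≠ c := by rintro rfl; exact h6 rfl
        have dd : ∀ p q r : Λ →₀ ℤ, p ≠ q → p ≠ r → q ≠ r →
            Dist4 (none : Option (Λ →₀ ℤ)) (some p) (some q) (some r) := by
          intro p q r hpq hpr hqr
          refine ⟨by simp, by simp, by simp, ?_, ?_, ?_⟩ <;> intro h <;>
          first
          | exact hpq (Option.some_injective _ h)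
          | exact hpr (Option.some_injective _ h)
          | exact hqr (Option.some_injective _ h)
        by_cases m1 : deg (b - c) ≤ deg (a - b) ∧ deg (b - c) ≤ deg (a - c)
        · exact key a b c hab hac hbc m1.1 m1.2
        · by_cases m2 : deg (a - c) ≤ deg (a - b) ∧ deg (a - c) ≤ deg (b - c)
          · -- `a, c` closest
            apply h23 _ _ _ _ (dd b a c hab.symm hbc hac)
            apply key b a c hab.symm hbc hac
            · rw [deg_sub_comm b a]; exact m2.1
            · exact m2.2
          · -- `a, b` closest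
            have m3 : deg (a - b) ≤ deg (b - c) ∧ deg (a - b) ≤ deg (a - c) := by
              rw [not_and_or, not_le, not_le] at m1 m2
              constructor
              · rcases m1 with m1 | m1
                · exact m1.le
                · rcases m2 with m2 | m2
                  · exact (m2.trans m1).le
                  · exact absurd m2 (not_lt.2 m1.le)
              · rcases m2 with m2 | m2
                · exact m2.le
                · rcases m1 with m1 | m1
                  · exact (m1.trans m2).le
                  · exact absurd m2 (not_lt.2 m1.le)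
            apply h34 _ _ _ _ (dd a c b hac hab hbc.symm)
            apply h23 _ _ _ _ (dd c a b hac.symm hbc.symm hab)
            apply key c a b hac.symm hbc.symm hab
            · rw [deg_sub_comm c a]; exact m3.2
            · rw [deg_sub_comm c b]; exact m3.1

/-- Good quadruples of an overgroup of `G0`. -/
lemma good4_iff_R {H : Subgroup (Equiv.Perm (Option (Λ →₀ ℤ)))} (hH : G0 Λ ≤ H)
    {Δ : AddSubgroup Λ} (hΔ2 : ∀ l : Λ, (2 : ℕ) • l ∈ Δ → l ∈ Δ)
    (hΔ : ∀ l : Λ, 0 < l → (l ∈ Δ ↔ DD H l)) :
    ∀ x y z w, Dist4 x y z w → (Good dir H ({x, y, z, w} : Set _) ↔ R Δ x y z w) := by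
  have hsw := hasSwaps_G0.mono hH
  apply quad_induction
  · intro g hg x y z w hd h
    rw [R_G0 hg hd] at h
    rw [← h, ← good_image_iff (hH hg)]
    have : (g '' {x, y, z, w} : Set (Option (Λ →₀ ℤ))) = {g x, g y, g z, g w} := by
      simp only [Set.image_insert_eq, Set.image_singleton]
    rw [this]
  · intro x y z w hd h
    have hs : ({x, z, y, w} : Set (Option (Λ →₀ ℤ))) = {x, y, z, w} := by
      ext; simp only [Set.mem_insert_iff, Set.mem_singleton_iff]; tauto
    rw [hs, h]
    exact ⟨R_swap23, R_swap23⟩
  · intro x y z w hd h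
    have hs : ({x, y, w, z} : Set (Option (Λ →₀ ℤ))) = {x, y, z, w} := by
      ext; simp only [Set.mem_insert_iff, Set.mem_singleton_iff]; tauto
    rw [hs, h]
    exact ⟨R_swap34, R_swap34⟩
  · intro a c ha hc hac hda hdac hdc
    have hR : R Δ none (some a) (some 0) (some c) ↔ (2 : ℕ) • deg c ∈ Δ := by
      unfold R
      simp only [beta_none_left, beta_some, sub_zero, zero_sub, deg_neg, hda, hdac, smul_zero,
        zero_add, sub_self, Δ.zero_mem, and_true]
    rw [hR]
    have hda' : dir (some a) = some (a 0) :=
      dir_some_of (fun μ hμ => apply_eq_zero_of_deg_lt (by rw [hda]; exact hμ))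
    have ha0 : a 0 ≠ 0 := by have := apply_deg_ne ha; rwa [hda] at this
    rcases hdc.lt_or_eq with hneg | hzero
    · -- `c` close to `0`
      have hdirc : dir (some c) = some 0 := dir_of_deg_neg hneg
      have h1 : (2 : ℕ) • deg c ∈ Δ ↔ -deg c ∈ Δ := by
        constructor
        · intro h; exact Δ.neg_mem (hΔ2 _ h)
        · intro h; exact Δ.nsmul_mem (by simpa using Δ.neg_mem h) 2
      rw [h1, hΔ _ (neg_pos.2 hneg)]
      constructor
      · intro hgood
        have hpair := ogood_pair_of_good dir_surjective hsw (x := none) (y := some a)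
          (z := some 0) (w := some c) (by rw [hda']; simp) (by simp)
          (by rw [hda', dir_zero]; intro h; exact ha0 (Option.some_injective _ h))
          (by rw [hdirc, dir_zero]) (by intro h; exact hc (Option.some_injective _ h).symm) hgood
        exact ogood_congr hH hc (wpt_ne_zero _) (by rw [deg_wpt, neg_neg]) hneg hpair
      · intro hDD
        have hpair : OGood dir H ({some 0, some c} : Set _) :=
          ogood_congr hH (wpt_ne_zero (-deg c)) hc (by rw [deg_wpt, neg_neg])
            (by rw [deg_wpt, neg_neg]; exact hneg) hDD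
        classical
        have hf : Fresh dir ((({none, some a} : Finset (Option (Λ →₀ ℤ)))) : Set _)
            ({some 0, some c} : Set (Option (Λ →₀ ℤ))) := by
          constructor
          · intro p hp q hq hpq
            simp only [Finset.coe_insert, Finset.coe_singleton, Set.mem_insert_iff,
              Set.mem_singleton_iff] at hp hq
            rcases hp with rfl | rfl <;> rcases hq with rfl | rfl <;>
              simp [hda'] at hpq ⊢
          · intro p hp q hq
            simp only [Finset.coe_insert, Finset.coe_singleton, Set.mem_insert_iff,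
              Set.mem_singleton_iff] at hp hq
            rcases hp with rfl | rfl <;> rcases hq with rfl | rfl <;>
              simp [hda', hdirc, ha0]
        apply (hpair _ hf).mono
        intro p hp
        simp only [Set.mem_insert_iff, Set.mem_singleton_iff] at hp
        simp only [Finset.coe_insert, Finset.coe_singleton, Set.mem_union, Set.mem_insert_iff,
          Set.mem_singleton_iff]
        tauto
    · -- a star
      have hdirc : dir (some c) = some (c 0) :=
        dir_some_of (fun μ hμ => apply_eq_zero_of_deg_lt (by rw [hzero]; exact hμ))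
      have hc0 : c 0 ≠ 0 := by have := apply_deg_ne hc; rwa [hzero] at this
      have hac0 : a 0 ≠ c 0 := by
        have := apply_deg_ne (sub_ne_zero.2 hac)
        rw [hdac, Finsupp.sub_apply] at this
        exact sub_ne_zero.1 this
      rw [hzero, smul_zero]
      constructor
      · intro _; exact Δ.zero_mem
      · intro _
        apply good_of_injOn
        intro p hp q hq hpq
        simp only [Set.mem_insert_iff, Set.mem_singleton_iff] at hp hq
        rcases hp with rfl | rfl | rfl | rfl <;> rcases hq with rfl | rfl | rfl | rfl <;>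
          first
          | rfl
          | (exfalso
             simp only [dir_none, hda', hdirc, dir_zero] at hpq
             first
             | exact ha0 (Option.some_injective _ hpq)
             | exact ha0 (Option.some_injective _ hpq).symm
             | exact hc0 (Option.some_injective _ hpq)
             | exact hc0 (Option.some_injective _ hpq).symm
             | exact hac0 (Option.some_injective _ hpq)
             | exact hac0 (Option.some_injective _ hpq).symm
             | exact absurd hpq (by simp))

/-- Hence `H` is contained in `GR Δ`. -/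
lemma le_GR {H : Subgroup (Equiv.Perm (Option (Λ →₀ ℤ)))} (hH : G0 Λ ≤ H)
    {Δ : AddSubgroup Λ} (hΔ2 : ∀ l : Λ, (2 : ℕ) • l ∈ Δ → l ∈ Δ)
    (hΔ : ∀ l : Λ, 0 < l → (l ∈ Δ ↔ DD H l)) : H ≤ GR Δ := by
  intro g hg x y z w hd
  rw [← good4_iff_R hH hΔ2 hΔ _ _ _ _ hd, ← good4_iff_R hH hΔ2 hΔ _ _ _ _ (hd.map g)]
  have h1 : (g '' {x, y, z, w} : Set (Option (Λ →₀ ℤ))) = {g x, g y, g z, g w} := by
    simp only [Set.image_insert_eq, Set.image_singleton]
  have h2 := good_image_iff (dir := dir) (S := ({x, y, z, w} : Set (Option (Λ →₀ ℤ)))) hg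
  rwa [h1] at h2

end Pool.Agent.MP_6aa20f_lc
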