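import Mathlib
import Pool.Agent.MP_6aa20f_lc.Relation

/-!
If `Δ'` is generated by `Δ` and a least positive element `ε` modulo `Δ`, then every automorphism
of `R Δ` is an automorphism of `R Δ'`; the inclusion of automorphism groups is strict.
-/

namespace Pool.Agent.MP_6aa20f_lc

variable {Λ : Type*} [AddCommGroup Λ] [LinearOrder Λ] [IsOrderedAddMonoid Λ]

omit [LinearOrder Λ] [IsOrderedAddMonoid Λ] in
lemma nsmul_sub_mem {Δ : AddSubgroup Λ} (hΔ2 : ∀ l : Λ, (2 : ℕ) • l ∈ Δ → l ∈ Δ) {a b : Λ} :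
    (2 : ℕ) • a - (2 : ℕ) • b ∈ Δ ↔ a - b ∈ Δ := by
  rw [← smul_sub]
  exact ⟨fun h => hΔ2 _ h, fun h => Δ.nsmul_mem h 2⟩

omit [IsOrderedAddMonoid Λ] in
lemma exists_parallel {y : Λ →₀ ℤ} :
    ∃ u : Λ →₀ ℤ, u ≠ 0 ∧ deg u = deg y ∧ (y ≠ 0 → y ≠ u ∧ deg (y - u) = deg y) := by
  obtain ⟨m, hm0, hm1⟩ : ∃ m : ℤ, m ≠ 0 ∧ m ≠ y (deg y) := by
    by_cases h1 : y (deg y) = 1
    · exact ⟨2, by norm_num, by rw [h1]; norm_num⟩
    · exact ⟨1, by norm_num, fun h' => h1 h'.symm⟩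
  refine ⟨Finsupp.single (deg y) m, by simp [hm0], deg_single _ hm0, ?_⟩
  intro _
  have h1 : (y - Finsupp.single (deg y) m) (deg y) ≠ 0 := by
    rw [Finsupp.sub_apply, Finsupp.single_eq_same]
    exact sub_ne_zero.2 (fun h => hm1 h.symm)
  constructor
  · intro h
    apply h1
    rw [← h, sub_self]; rfl
  · apply deg_eq h1
    intro ν hν
    rw [Finsupp.sub_apply, apply_eq_zero_of_deg_lt hν, Finsupp.single_apply,
      if_neg (ne_of_lt hν), sub_zero]

omit [IsOrderedAddMonoid Λ] in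
/-- Claim 1: the position order on the line from infinity to `0` is preserved. -/
lemma claim1 {Δ : AddSubgroup Λ} (hΔ2 : ∀ l : Λ, (2 : ℕ) • l ∈ Δ → l ∈ Δ)
    {g : Equiv.Perm (Option (Λ →₀ ℤ))} (hg : g ∈ GR Δ) (hgn : g none = none)
    (hg0 : g (some 0) = some 0) {y z y' z' : Λ →₀ ℤ} (hy : y ≠ 0) (hz : z ≠ 0)
    (hgy : g (some y) = some y') (hgz : g (some z) = some z')
    (hlt : deg z < deg y) (hn : deg y - deg z ∉ Δ) :
    deg z' < deg y' ∧ deg y' - deg z' ∉ Δ := by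
  obtain ⟨u, hu0, hdu, hyu⟩ := exists_parallel (y := y)
  obtain ⟨hyu, hdyu⟩ := hyu hy
  have hyz : y ≠ z := by rintro rfl; exact lt_irrefl _ hlt
  have hzu : z ≠ u := by rintro rfl; rw [hdu] at hlt; exact lt_irrefl _ hlt
  have hdyz : deg (y - z) = deg y := deg_sub_of_lt hy hlt
  have hdzu : deg (z - u) = deg y := by
    rw [deg_sub_comm, deg_sub_of_lt hu0 (by rw [hdu]; exact hlt), hdu]
  have sne : ∀ {p q : Λ →₀ ℤ}, p ≠ q → (some p : Option (Λ →₀ ℤ)) ≠ some q :=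
    fun h h' => h (Option.some_injective _ h')
  -- the three facts
  have f1 : R Δ none (some y) (some z) (some u) := by
    unfold R
    simp only [beta_none_left, beta_some, hdzu, hdyu, hdyz, sub_self, Δ.zero_mem, and_self]
  have f2 : R Δ none (some y) (some 0) (some u) := by
    unfold R
    simp only [beta_none_left, beta_some, zero_sub, deg_neg, sub_zero, hdu, hdyu, sub_self,
      Δ.zero_mem, and_self]
  have f3 : ¬ R Δ none (some y) (some z) (some 0) := by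
    unfold R
    simp only [beta_none_left, beta_some, sub_zero, zero_add]
    rintro ⟨h, -⟩
    rw [nsmul_sub_mem hΔ2] at h
    apply hn
    have := Δ.neg_mem h
    rwa [neg_sub] at this
  have d1 : Dist4 (none : Option (Λ →₀ ℤ)) (some y) (some z) (some u) :=
    ⟨by simp, by simp, by simp, sne hyz, sne hyu, sne hzu⟩
  have d2 : Dist4 (none : Option (Λ →₀ ℤ)) (some y) (some 0) (some u) :=
    ⟨by simp, by simp, by simp, sne hy, sne hyu, sne hu0.symm⟩
  have d3 : Dist4 (none : Option (Λ →₀ ℤ)) (some y) (some z) (some 0) :=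
    ⟨by simp, by simp, by simp, sne hyz, sne hy, sne hz⟩
  rw [← hg _ _ _ _ d1, hgn, hgy, hgz] at f1
  rw [← hg _ _ _ _ d2, hgn, hgy, hg0] at f2
  rw [← hg _ _ _ _ d3, hgn, hgy, hgz, hg0] at f3
  -- the image of `u`
  have hgu : g (some u) ≠ none := by
    intro h; rw [← hgn] at h; exact absurd (g.injective h) (by simp)
  obtain ⟨u', hu'⟩ := Option.ne_none_iff_exists'.1 hgu
  rw [hu'] at f1 f2
  unfold R at f1 f2 f3
  simp only [beta_none_left, beta_some, zero_sub, deg_neg, sub_zero, zero_add] at f1 f2 f3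
  rw [nsmul_sub_mem hΔ2, nsmul_sub_mem hΔ2] at f1 f2 f3
  obtain ⟨f11, f12⟩ := f1
  obtain ⟨f21, f22⟩ := f2
  -- `deg (y' - z') ≡ deg y'`
  have h1 : deg y' - deg (y' - z') ∈ Δ := by
    have := Δ.sub_mem f12 f22
    have e : deg (y' - u') - deg (y' - z') - (deg (y' - u') - deg y') = deg y' - deg (y' - z') := by
      abel
    rwa [e] at this
  have h2 : deg y' - deg z' ∉ Δ := by
    intro h
    apply f3
    refine ⟨?_, h1⟩
    have := Δ.neg_mem h
    rwa [neg_sub] at this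
  have hy'0 : y' ≠ 0 := by
    rintro rfl
    rw [← hg0] at hgy
    exact sne hy (g.injective hgy)
  have hz'0 : z' ≠ 0 := by
    rintro rfl
    rw [← hg0] at hgz
    exact sne hz (g.injective hgz)
  refine ⟨?_, h2⟩
  rcases lt_trichotomy (deg z') (deg y') with h | h | h
  · exact h
  · exfalso; apply h2; rw [h, sub_self]; exact Δ.zero_mem
  · exfalso
    apply h2
    have : deg (y' - z') = deg z' := by rw [deg_sub_comm, deg_sub_of_lt hz'0 h]
    rwa [this] at h1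

section

variable {Δ Δ' : AddSubgroup Λ} {ε : Λ}

omit [AddCommGroup Λ] [LinearOrder Λ] [IsOrderedAddMonoid Λ] in
lemma inv_fix_none {g : Equiv.Perm (Option (Λ →₀ ℤ))} {p : Option (Λ →₀ ℤ)} (h : g p = p) :
    g⁻¹ p = p := by
  conv_lhs => rw [← h]
  exact perm_inv_apply g p

omit [IsOrderedAddMonoid Λ] in
/-- Claim 2. -/
lemma claim2 (hΔ2 : ∀ l : Λ, (2 : ℕ) • l ∈ Δ → l ∈ Δ)
    {g : Equiv.Perm (Option (Λ →₀ ℤ))} (hg : g ∈ GR Δ) (hgn : g none = none)
    (hg0 : g (some 0) = some 0) {y z y' z' : Λ →₀ ℤ} (hy : y ≠ 0) (hz : z ≠ 0)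
    (hgy : g (some y) = some y') (hgz : g (some z) = some z')
    (h : deg y - deg z ∈ Δ) : deg y' - deg z' ∈ Δ := by
  by_contra hn
  have hy'0 : y' ≠ 0 := by
    rintro rfl
    rw [← hg0] at hgy
    exact hy (Option.some_injective _ (g.injective hgy))
  have hz'0 : z' ≠ 0 := by
    rintro rfl
    rw [← hg0] at hgz
    exact hz (Option.some_injective _ (g.injective hgz))
  have hgy' : g⁻¹ (some y') = some y := by rw [← hgy, perm_inv_apply]
  have hgz' : g⁻¹ (some z') = some z := by rw [← hgz, perm_inv_apply]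
  rcases lt_trichotomy (deg z') (deg y') with hlt | heq | hlt
  · exact (claim1 hΔ2 ((GR Δ).inv_mem hg) (inv_fix_none hgn) (inv_fix_none hg0) hy'0 hz'0
      hgy' hgz' hlt hn).2 h
  · apply hn; rw [heq, sub_self]; exact Δ.zero_mem
  · refine (claim1 hΔ2 ((GR Δ).inv_mem hg) (inv_fix_none hgn) (inv_fix_none hg0) hz'0 hy'0
      hgz' hgy' hlt ?_).2 ?_
    · intro h'; apply hn
      have := Δ.neg_mem h'; rwa [neg_sub] at this
    · have := Δ.neg_mem h; rwa [neg_sub] at this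

/-- Claim 3: adjacency is preserved. -/
lemma claim3 (hΔ2 : ∀ l : Λ, (2 : ℕ) • l ∈ Δ → l ∈ Δ) (hε : ε ∉ Δ)
    (F0 : ∀ γ ∈ Δ, 0 < ε + γ)
    (F1 : ∀ δ : Λ, 0 < δ → δ ∉ Δ → δ - ε ∈ Δ ∨ (0 < δ - ε ∧ δ - ε ∉ Δ))
    (F2 : ∀ a b : Λ, 0 < a → a ∉ Δ → 0 < b → b ∉ Δ → a + b - ε ∉ Δ)
    {g : Equiv.Perm (Option (Λ →₀ ℤ))} (hg : g ∈ GR Δ) (hgn : g none = none)
    (hg0 : g (some 0) = some 0) {y z y' z' : Λ →₀ ℤ} (hy : y ≠ 0) (hz : z ≠ 0)
    (hgy : g (some y) = some y') (hgz : g (some z) = some z')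
    (h : deg y - deg z - ε ∈ Δ) : deg y' - deg z' - ε ∈ Δ := by
  have hy'0 : y' ≠ 0 := by
    rintro rfl
    rw [← hg0] at hgy
    exact hy (Option.some_injective _ (g.injective hgy))
  have hz'0 : z' ≠ 0 := by
    rintro rfl
    rw [← hg0] at hgz
    exact hz (Option.some_injective _ (g.injective hgz))
  have hgy' : g⁻¹ (some y') = some y := by rw [← hgy, perm_inv_apply]
  have hgz' : g⁻¹ (some z') = some z := by rw [← hgz, perm_inv_apply]
  have hpos : 0 < deg y - deg z := by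
    have := F0 _ h
    have e : ε + (deg y - deg z - ε) = deg y - deg z := by abel
    rwa [e] at this
  have hlt : deg z < deg y := sub_pos.1 hpos
  have hn : deg y - deg z ∉ Δ := by
    intro h'
    apply hε
    have := Δ.sub_mem h' h
    have e : deg y - deg z - (deg y - deg z - ε) = ε := by abel
    rwa [e] at this
  obtain ⟨hlt', hn'⟩ := claim1 hΔ2 hg hgn hg0 hy hz hgy hgz hlt hn
  rcases F1 _ (sub_pos.2 hlt') hn' with h1 | ⟨h1, h2⟩
  · exact h1
  · exfalso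
    -- an intermediate point
    set u' : Λ →₀ ℤ := Finsupp.single (deg y' - ε) 1 with hu'
    have hu'0 : u' ≠ 0 := by simp [hu']
    have hdu' : deg u' = deg y' - ε := deg_single _ one_ne_zero
    have hεpos : 0 < ε := by simpa using F0 0 Δ.zero_mem
    have hgu : g⁻¹ (some u') ≠ none := by
      intro h3
      have : g (g⁻¹ (some u')) = g none := by rw [h3]
      rw [perm_apply_inv, hgn] at this
      exact absurd this (by simp)
    obtain ⟨u, hu⟩ := Option.ne_none_iff_exists'.1 hgu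
    have hgi := (GR Δ).inv_mem hg
    have a1 := claim1 hΔ2 hgi (inv_fix_none hgn) (inv_fix_none hg0) hy'0 hu'0 hgy' hu
      (by rw [hdu']; exact sub_lt_self _ hεpos)
      (by rw [hdu', sub_sub_cancel]; exact hε)
    have a2 := claim1 hΔ2 hgi (inv_fix_none hgn) (inv_fix_none hg0) hu'0 hz'0 hu hgz'
      (by rw [hdu']
          have e : deg y' - deg z' - ε = deg y' - ε - deg z' := by abel
          rw [e] at h1
          exact sub_pos.1 h1)
      (by rw [hdu']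
          have e : deg y' - deg z' - ε = deg y' - ε - deg z' := by abel
          rwa [e] at h2)
    apply F2 _ _ (sub_pos.2 a1.1) a1.2 (sub_pos.2 a2.1) a2.2
    have e : deg y - deg u + (deg u - deg z) - ε = deg y - deg z - ε := by abel
    rwa [e]

lemma claim4 (hΔ2 : ∀ l : Λ, (2 : ℕ) • l ∈ Δ → l ∈ Δ) (hε : ε ∉ Δ)
    (F0 : ∀ γ ∈ Δ, 0 < ε + γ)
    (F1 : ∀ δ : Λ, 0 < δ → δ ∉ Δ → δ - ε ∈ Δ ∨ (0 < δ - ε ∧ δ - ε ∉ Δ))
    (F2 : ∀ a b : Λ, 0 < a → a ∉ Δ → 0 < b → b ∉ Δ → a + b - ε ∉ Δ)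
    {g : Equiv.Perm (Option (Λ →₀ ℤ))} (hg : g ∈ GR Δ) (hgn : g none = none)
    (hg0 : g (some 0) = some 0) (n : ℕ) :
    ∀ {y z y' z' : Λ →₀ ℤ}, y ≠ 0 → z ≠ 0 →
    g (some y) = some y' → g (some z) = some z' →
    deg y - deg z - n • ε ∈ Δ → deg y' - deg z' - n • ε ∈ Δ := by
  induction n with
  | zero =>
    intro y z y' z' hy hz hgy hgz h
    simp only [zero_smul, sub_zero] at h ⊢
    exact claim2 hΔ2 hg hgn hg0 hy hz hgy hgz h
  | succ n ih =>
    intro y z y' z' hy hz hgy hgz h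
    set u : Λ →₀ ℤ := Finsupp.single (deg y - ε) 1 with hu
    have hu0 : u ≠ 0 := by simp [hu]
    have hdu : deg u = deg y - ε := deg_single _ one_ne_zero
    have hgu : g (some u) ≠ none := by
      intro h'; rw [← hgn] at h'; exact absurd (g.injective h') (by simp)
    obtain ⟨u', hu'⟩ := Option.ne_none_iff_exists'.1 hgu
    have h1 : deg y' - deg u' - ε ∈ Δ := by
      apply claim3 hΔ2 hε F0 F1 F2 hg hgn hg0 hy hu0 hgy hu'
      rw [hdu]
      have e : deg y - (deg y - ε) - ε = 0 := by abel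
      rw [e]; exact Δ.zero_mem
    have h2 : deg u' - deg z' - n • ε ∈ Δ := by
      apply ih hu0 hz hu' hgz
      rw [hdu]
      have e : deg y - ε - deg z - n • ε = deg y - deg z - (n + 1) • ε := by
        rw [add_smul, one_smul]; abel
      rwa [e]
    have := Δ.add_mem h1 h2
    have e : deg y' - deg u' - ε + (deg u' - deg z' - n • ε) =
        deg y' - deg z' - (n + 1) • ε := by
      rw [add_smul, one_smul]; abel
    rwa [e] at this

lemma claim5 (hΔ2 : ∀ l : Λ, (2 : ℕ) • l ∈ Δ → l ∈ Δ) (hε : ε ∉ Δ)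
    (F0 : ∀ γ ∈ Δ, 0 < ε + γ)
    (F1 : ∀ δ : Λ, 0 < δ → δ ∉ Δ → δ - ε ∈ Δ ∨ (0 < δ - ε ∧ δ - ε ∉ Δ))
    (F2 : ∀ a b : Λ, 0 < a → a ∉ Δ → 0 < b → b ∉ Δ → a + b - ε ∉ Δ)
    (hΔ' : ∀ δ : Λ, δ ∈ Δ' ↔ ∃ n : ℤ, δ - n • ε ∈ Δ)
    {g : Equiv.Perm (Option (Λ →₀ ℤ))} (hg : g ∈ GR Δ) (hgn : g none = none)
    (hg0 : g (some 0) = some 0) {y z y' z' : Λ →₀ ℤ} (hy : y ≠ 0) (hz : z ≠ 0)
    (hgy : g (some y) = some y') (hgz : g (some z) = some z')
    (h : deg y - deg z ∈ Δ') : deg y' - deg z' ∈ Δ' := by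
  obtain ⟨n, hn⟩ := (hΔ' _).1 h
  rcases Int.eq_nat_or_neg n with ⟨m, rfl | rfl⟩
  · rw [hΔ']
    refine ⟨m, ?_⟩
    rw [natCast_zsmul] at hn ⊢
    exact claim4 hΔ2 hε F0 F1 F2 hg hgn hg0 m hy hz hgy hgz hn
  · have h1 : deg z - deg y - m • ε ∈ Δ := by
      have := Δ.neg_mem hn
      have e : -(deg y - deg z - (-(m : ℤ)) • ε) = deg z - deg y - m • ε := by
        rw [neg_smul, natCast_zsmul]; abel
      rwa [e] at this
    have h2 := claim4 hΔ2 hε F0 F1 F2 hg hgn hg0 m hz hy hgz hgy h1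
    rw [← neg_sub]
    apply Δ'.neg_mem
    rw [hΔ']
    refine ⟨m, ?_⟩
    rwa [natCast_zsmul]

lemma exists_G0_to_pair {x w : Option (Λ →₀ ℤ)} (h : x ≠ w) :
    ∃ k ∈ G0 Λ, k x = none ∧ k w = some 0 := by
  obtain ⟨k, hk, hkx⟩ := exists_K0_to_none x
  have h1 : k w ≠ none := by
    intro h'; rw [← hkx] at h'; exact h (k.injective h').symm
  obtain ⟨u, hu⟩ := Option.ne_none_iff_exists'.1 h1
  refine ⟨tr (-u) * k, (G0 Λ).mul_mem (tr_mem _) hk.1, ?_, ?_⟩
  · rw [Equiv.Perm.mul_apply, hkx, tr_none]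
  · rw [Equiv.Perm.mul_apply, hu, tr_some, add_neg_cancel]

omit [IsOrderedAddMonoid Λ] in
lemma cr_normal (a b : Λ →₀ ℤ) :
    cr none (some 0) (some a) (some b) = (2 : ℕ) • deg b - (2 : ℕ) • deg a := by
  unfold cr
  simp only [beta_none_left, beta_some, zero_sub, deg_neg]
  abel

lemma cr_mem_of_cr_mem (hΔ2 : ∀ l : Λ, (2 : ℕ) • l ∈ Δ → l ∈ Δ)
    (hΔ'2 : ∀ l : Λ, (2 : ℕ) • l ∈ Δ' → l ∈ Δ') (hε : ε ∉ Δ)
    (F0 : ∀ γ ∈ Δ, 0 < ε + γ)
    (F1 : ∀ δ : Λ, 0 < δ → δ ∉ Δ → δ - ε ∈ Δ ∨ (0 < δ - ε ∧ δ - ε ∉ Δ))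
    (F2 : ∀ a b : Λ, 0 < a → a ∉ Δ → 0 < b → b ∉ Δ → a + b - ε ∉ Δ)
    (hΔ' : ∀ δ : Λ, δ ∈ Δ' ↔ ∃ n : ℤ, δ - n • ε ∈ Δ)
    {g : Equiv.Perm (Option (Λ →₀ ℤ))} (hg : g ∈ GR Δ) {x w y z : Option (Λ →₀ ℤ)}
    (hd : Dist4 x w y z) (h : cr x w y z ∈ Δ') : cr (g x) (g w) (g y) (g z) ∈ Δ' := by
  obtain ⟨k1, hk1, hk1x, hk1w⟩ := exists_G0_to_pair hd.1
  obtain ⟨k2, hk2, hk2x, hk2w⟩ := exists_G0_to_pair (hd.map g).1
  have hd1 := hd.map k1
  rw [← hk1 _ _ _ _ hd, hk1x, hk1w] at h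
  rw [← hk2 _ _ _ _ (hd.map g), hk2x, hk2w]
  obtain ⟨G, hG⟩ : ∃ G : Equiv.Perm (Option (Λ →₀ ℤ)), G = k2 * g * k1⁻¹ := ⟨_, rfl⟩
  have hGm : G ∈ GR Δ := by
    rw [hG]
    exact (GR Δ).mul_mem ((GR Δ).mul_mem (G0_le_GR Δ hk2) hg) ((GR Δ).inv_mem (G0_le_GR Δ hk1))
  have hGn : G none = none := by
    rw [hG, Equiv.Perm.mul_apply, Equiv.Perm.mul_apply, ← hk1x, perm_inv_apply, hk2x]
    exact hk1x.symm
  have hG0 : G (some 0) = some 0 := by
    rw [hG, Equiv.Perm.mul_apply, Equiv.Perm.mul_apply, ← hk1w, perm_inv_apply, hk2w]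
    exact hk1w.symm
  have hGp : ∀ p, G (k1 p) = k2 (g p) := by
    intro p
    rw [hG, Equiv.Perm.mul_apply, Equiv.Perm.mul_apply, perm_inv_apply]
  rw [hk1x, hk1w] at hd1
  obtain ⟨h1, h2, h3, h4, h5, h6⟩ := hd1
  obtain ⟨a, ha⟩ := Option.ne_none_iff_exists'.1 h2.symm
  obtain ⟨b, hb⟩ := Option.ne_none_iff_exists'.1 h3.symm
  have ha' : G (some a) ≠ none := by
    intro h'; rw [← hGn] at h'; exact absurd (G.injective h') (by simp)
  have hb' : G (some b) ≠ none := by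
    intro h'; rw [← hGn] at h'; exact absurd (G.injective h') (by simp)
  obtain ⟨a', ha'⟩ := Option.ne_none_iff_exists'.1 ha'
  obtain ⟨b', hb'⟩ := Option.ne_none_iff_exists'.1 hb'
  rw [← hGp y, ← hGp z, ha, hb, ha', hb', cr_normal, nsmul_sub_mem hΔ'2]
  rw [ha, hb, cr_normal, nsmul_sub_mem hΔ'2] at h
  have ha0 : a ≠ 0 := by rintro rfl; exact h4 ha.symm
  have hb0 : b ≠ 0 := by rintro rfl; exact h5 hb.symm
  exact claim5 hΔ2 hε F0 F1 F2 hΔ' hGm hGn hG0 hb0 ha0 hb' ha' h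

omit [IsOrderedAddMonoid Λ] in
lemma R_iff_cr {x y z w : Option (Λ →₀ ℤ)} :
    R Δ x y z w ↔ cr x w y z ∈ Δ ∧ cr x y z w ∈ Δ := by
  unfold R cr
  rw [beta_comm w z, beta_comm w y]
  have e1 : beta x y + beta z w - (beta x z + beta y w) =
      beta x y + beta z w - beta x z - beta y w := by abel
  have e2 : beta x z + beta y w - (beta x w + beta y z) =
      beta x z + beta y w - beta x w - beta y z := by abel
  rw [e1, e2]

lemma GR_mono (hΔ2 : ∀ l : Λ, (2 : ℕ) • l ∈ Δ → l ∈ Δ)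
    (hΔ'2 : ∀ l : Λ, (2 : ℕ) • l ∈ Δ' → l ∈ Δ') (hε : ε ∉ Δ)
    (F0 : ∀ γ ∈ Δ, 0 < ε + γ)
    (F1 : ∀ δ : Λ, 0 < δ → δ ∉ Δ → δ - ε ∈ Δ ∨ (0 < δ - ε ∧ δ - ε ∉ Δ))
    (F2 : ∀ a b : Λ, 0 < a → a ∉ Δ → 0 < b → b ∉ Δ → a + b - ε ∉ Δ)
    (hΔ' : ∀ δ : Λ, δ ∈ Δ' ↔ ∃ n : ℤ, δ - n • ε ∈ Δ) : GR Δ ≤ GR Δ' := by
  have key : ∀ g ∈ GR Δ, ∀ x y z w, Dist4 x y z w → R Δ' x y z w →
      R Δ' (g x) (g y) (g z) (g w) := by
    intro g hg x y z w hd h
    rw [R_iff_cr] at h ⊢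
    exact ⟨cr_mem_of_cr_mem hΔ2 hΔ'2 hε F0 F1 F2 hΔ' hg hd.swap34.swap23 h.1,
      cr_mem_of_cr_mem hΔ2 hΔ'2 hε F0 F1 F2 hΔ' hg hd h.2⟩
  intro g hg x y z w hd
  constructor
  · intro h
    have := key g⁻¹ ((GR Δ).inv_mem hg) _ _ _ _ (hd.map g) h
    simpa only [perm_inv_apply] using this
  · exact key g hg x y z w hd

/-! ### Strictness -/

/-- The coordinate permutation exchanging the exponents `0` and `-ε`. -/
noncomputable def cswap (ε : Λ) : (Λ →₀ ℤ) ≃+ (Λ →₀ ℤ) :=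
  Finsupp.domCongr (Equiv.swap 0 (-ε))

omit [IsOrderedAddMonoid Λ] in
lemma cswap_apply (ε : Λ) (x : Λ →₀ ℤ) (μ : Λ) : cswap ε x μ = x (Equiv.swap 0 (-ε) μ) := by
  simp [cswap, Finsupp.domCongr]

omit [IsOrderedAddMonoid Λ] in
lemma cswap_single (ε μ : Λ) (a : ℤ) :
    cswap ε (Finsupp.single μ a) = Finsupp.single (Equiv.swap 0 (-ε) μ) a := by
  ext ν
  rw [cswap_apply, Finsupp.single_apply, Finsupp.single_apply]
  by_cases h : μ = Equiv.swap 0 (-ε) ν
  · rw [if_pos h, if_pos (by rw [h, Equiv.swap_apply_self])]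
  · rw [if_neg h, if_neg (by intro h'; apply h; rw [← h', Equiv.swap_apply_self])]

/-- The corresponding permutation of the points. -/
noncomputable def cs (ε : Λ) : Equiv.Perm (Option (Λ →₀ ℤ)) :=
  Equiv.optionCongr (cswap ε).toEquiv

omit [IsOrderedAddMonoid Λ] in
@[simp] lemma cs_some (ε : Λ) (x : Λ →₀ ℤ) : cs ε (some x) = some (cswap ε x) := rfl
omit [IsOrderedAddMonoid Λ] in
@[simp] lemma cs_none (ε : Λ) : cs ε (none : Option (Λ →₀ ℤ)) = none := rfl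

lemma deg_cswap (hε' : ε ∈ Δ')
    (hconv : ∀ a b δ : Λ, a ∈ Δ' → b ∈ Δ' → a ≤ δ → δ ≤ b → δ ∈ Δ')
    {v : Λ →₀ ℤ} (hv : v ≠ 0) : deg (cswap ε v) - deg v ∈ Δ' := by
  have hτ : ∀ μ : Λ, Equiv.swap 0 (-ε) μ - μ ∈ Δ' := by
    intro μ
    by_cases h1 : μ = 0
    · subst h1; rw [Equiv.swap_apply_left, sub_zero]; exact Δ'.neg_mem hε'
    · by_cases h2 : μ = -ε
      · subst h2; rw [Equiv.swap_apply_right, zero_sub, neg_neg]; exact hε'
      · rw [Equiv.swap_apply_of_ne_of_ne h1 h2, sub_self]; exact Δ'.zero_mem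
  have hTv : cswap ε v ≠ 0 := by
    intro h; exact hv ((cswap ε).injective (by rw [h, map_zero]))
  apply hconv (Equiv.swap 0 (-ε) (deg v) - deg v)
    (deg (cswap ε v) - Equiv.swap 0 (-ε) (deg (cswap ε v)))
  · exact hτ _
  · have := Δ'.neg_mem (hτ (deg (cswap ε v)))
    rwa [neg_sub] at this
  · apply sub_le_sub_right
    apply le_deg
    rw [cswap_apply, Equiv.swap_apply_self]
    exact apply_deg_ne hv
  · apply sub_le_sub_left
    apply le_deg
    have := apply_deg_ne hTv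
    rwa [cswap_apply] at this

lemma cs_mem (hε' : ε ∈ Δ')
    (hconv : ∀ a b δ : Λ, a ∈ Δ' → b ∈ Δ' → a ≤ δ → δ ≤ b → δ ∈ Δ') : cs ε ∈ GR Δ' := by
  have key : ∀ x y : Option (Λ →₀ ℤ), x ≠ y → beta (cs ε x) (cs ε y) - beta x y ∈ Δ' := by
    intro x y hxy
    cases x with
    | none => simp [Δ'.zero_mem]
    | some x => cases y with
      | none => simp [Δ'.zero_mem]
      | some y =>
        simp only [cs_some, beta_some, ← map_sub]
        rw [← smul_sub]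
        apply Δ'.nsmul_mem
        apply deg_cswap hε' hconv
        intro h; apply hxy; rw [sub_eq_zero.1 h]
  intro x y z w hd
  obtain ⟨h1, h2, h3, h4, h5, h6⟩ := hd
  unfold R
  have k1 := key x y h1
  have k2 := key x z h2
  have k3 := key x w h3
  have k4 := key y z h4
  have k5 := key y w h5
  have k6 := key z w h6
  have e1 : beta (cs ε x) (cs ε y) + beta (cs ε z) (cs ε w) -
      (beta (cs ε x) (cs ε z) + beta (cs ε y) (cs ε w)) ∈ Δ' ↔
      beta x y + beta z w - (beta x z + beta y w) ∈ Δ' := by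
    have := Δ'.sub_mem (Δ'.add_mem k1 k6) (Δ'.add_mem k2 k5)
    constructor
    · intro h
      have h' := Δ'.sub_mem h this
      convert h' using 1
      abel
    · intro h
      have h' := Δ'.add_mem h this
      convert h' using 1
      abel
  have e2 : beta (cs ε x) (cs ε z) + beta (cs ε y) (cs ε w) -
      (beta (cs ε x) (cs ε w) + beta (cs ε y) (cs ε z)) ∈ Δ' ↔
      beta x z + beta y w - (beta x w + beta y z) ∈ Δ' := by
    have := Δ'.sub_mem (Δ'.add_mem k2 k5) (Δ'.add_mem k3 k4)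
    constructor
    · intro h
      have h' := Δ'.sub_mem h this
      convert h' using 1
      abel
    · intro h
      have h' := Δ'.add_mem h this
      convert h' using 1
      abel
  rw [e1, e2]

lemma cs_not_mem (hΔ2 : ∀ l : Λ, (2 : ℕ) • l ∈ Δ → l ∈ Δ) (hε : ε ∉ Δ) (hpos : 0 < ε) :
    cs ε ∉ GR Δ := by
  intro h
  set a : Λ →₀ ℤ := Finsupp.single 0 1 with ha
  set c : Λ →₀ ℤ := Finsupp.single 0 2 + Finsupp.single (-ε) 1 with hc
  have hne : -ε ≠ 0 := by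
    intro h'; rw [neg_eq_zero] at h'; rw [h'] at hpos; exact lt_irrefl _ hpos
  have hnegε : -ε < 0 := neg_lt_zero.2 hpos
  have ha0 : a ≠ 0 := by simp [ha]
  have hda : deg a = 0 := deg_single _ one_ne_zero
  have hc0 : c 0 = 2 := by
    rw [hc, Finsupp.add_apply, Finsupp.single_eq_same, Finsupp.single_apply, if_neg hne]; rfl
  have hcne : c ≠ 0 := by intro h'; rw [h'] at hc0; simp at hc0
  have hdc : deg c = 0 := by
    apply deg_eq
    · rw [hc0]; norm_num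
    · intro ν hν
      rw [hc, Finsupp.add_apply, Finsupp.single_apply, if_neg (ne_of_lt hν), Finsupp.single_apply,
        if_neg (ne_of_lt (hnegε.trans hν))]; rfl
  have hac : a ≠ c := by
    intro h'; have := DFunLike.congr_fun h' 0; rw [hc0, ha, Finsupp.single_eq_same] at this
    norm_num at this
  have hdac : deg (a - c) = 0 := by
    apply deg_eq
    · rw [Finsupp.sub_apply, hc0, ha, Finsupp.single_eq_same]; norm_num
    · intro ν hν
      rw [Finsupp.sub_apply, apply_eq_zero_of_deg_lt (by rw [hda]; exact hν),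
        apply_eq_zero_of_deg_lt (by rw [hdc]; exact hν), sub_zero]
  have hd : Dist4 (none : Option (Λ →₀ ℤ)) (some a) (some 0) (some c) :=
    ⟨by simp, by simp, by simp, fun h' => ha0 (Option.some_injective _ h'),
      fun h' => hac (Option.some_injective _ h'), fun h' => hcne (Option.some_injective _ h').symm⟩
  have hR : R Δ none (some a) (some 0) (some c) := by
    unfold R
    simp only [beta_none_left, beta_some, sub_zero, zero_sub, deg_neg, hda, hdac, hdc, smul_zero,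
        sub_self, Δ.zero_mem, and_true]
  rw [← h _ _ _ _ hd] at hR
  simp only [cs_none, cs_some, map_zero] at hR
  have hTa : cswap ε a = Finsupp.single (-ε) 1 := by
    rw [ha, cswap_single, Equiv.swap_apply_left]
  have hTc : cswap ε c = Finsupp.single (-ε) 2 + Finsupp.single 0 1 := by
    rw [hc, map_add, cswap_single, cswap_single, Equiv.swap_apply_left, Equiv.swap_apply_right]
  have hdTa : deg (cswap ε a) = -ε := by rw [hTa]; exact deg_single _ one_ne_zero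
  have hTac : cswap ε a - cswap ε c = -(Finsupp.single 0 1 + Finsupp.single (-ε) 1) := by
    rw [hTa, hTc]
    have : (Finsupp.single (-ε) 2 : Λ →₀ ℤ) = Finsupp.single (-ε) 1 + Finsupp.single (-ε) 1 := by
      rw [← Finsupp.single_add]; rfl
    rw [this]; abel
  have hdTac : deg (cswap ε a - cswap ε c) = 0 := by
    rw [hTac, deg_neg]
    apply deg_eq
    · rw [Finsupp.add_apply, Finsupp.single_eq_same, Finsupp.single_apply, if_neg hne]; norm_num
    · intro ν hν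
      rw [Finsupp.add_apply, Finsupp.single_apply, if_neg (ne_of_lt hν), Finsupp.single_apply,
        if_neg (ne_of_lt (hnegε.trans hν))]; rfl
  unfold R at hR
  simp only [beta_none_left, beta_some, sub_zero, hdTa, hdTac, smul_zero, zero_add, zero_sub] at hR
  have h2 := hR.2
  rw [smul_neg, neg_neg] at h2
  exact hε (hΔ2 _ h2)

end

end Pool.Agent.MP_6aa20f_lc
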