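import Mathlib
import Pool.Agent.MP_6aa20f_lc.Recognize

/-!
The ordered group `Λ = Colex (ℕ →₀ ℤ)`, its chain of convex subgroups, and the final contradiction.
-/

namespace Pool.Agent.MP_6aa20f_lc

/-- The ordered group: finitely supported integer sequences, the largest index dominates. -/
abbrev Lam : Type := Colex (ℕ →₀ ℤ)

instance : Countable Lam := inferInstanceAs (Countable (ℕ →₀ ℤ))

/-- Coordinates. -/
def co (d : Lam) (j : ℕ) : ℤ := (ofColex d) j

@[simp] lemma co_add (a b : Lam) (j : ℕ) : co (a + b) j = co a j + co b j := rfl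
@[simp] lemma co_sub (a b : Lam) (j : ℕ) : co (a - b) j = co a j - co b j := rfl
@[simp] lemma co_neg (a : Lam) (j : ℕ) : co (-a) j = -co a j := rfl
@[simp] lemma co_zero (j : ℕ) : co 0 j = 0 := rfl

lemma co_nsmul (n : ℕ) (a : Lam) (j : ℕ) : co (n • a) j = n * co a j := by
  induction n with
  | zero => simp
  | succ n ih => rw [add_smul, one_smul, co_add, ih]; push_cast; ring

lemma co_zsmul (n : ℤ) (a : Lam) (j : ℕ) : co (n • a) j = n * co a j := by
  rcases Int.eq_nat_or_neg n with ⟨m, rfl | rfl⟩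
  · rw [natCast_zsmul, co_nsmul]
  · rw [neg_smul, natCast_zsmul, co_neg, co_nsmul]; ring

lemma lam_ext {a b : Lam} (h : ∀ j, co a j = co b j) : a = b := by
  apply ofColex.injective
  exact Finsupp.ext h

lemma pos_iff {d : Lam} : 0 < d ↔ ∃ k, (∀ j, k < j → co d j = 0) ∧ 0 < co d k := by
  rw [Finsupp.Colex.lt_iff]
  constructor
  · rintro ⟨k, h1, h2⟩
    exact ⟨k, fun j hj => (h1 j hj).symm, h2⟩
  · rintro ⟨k, h1, h2⟩
    exact ⟨k, fun j hj => (h1 j hj).symm, h2⟩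

/-- The `i`-th unit vector. -/
noncomputable def ee (i : ℕ) : Lam := toColex (Finsupp.single i 1)

lemma co_ee (i j : ℕ) : co (ee i) j = if i = j then 1 else 0 := by
  show (Finsupp.single i (1 : ℤ)) j = _
  rw [Finsupp.single_apply]

/-- The chain of convex subgroups. -/
def Dl (i : ℕ) : AddSubgroup Lam where
  carrier := {d | ∀ j, i ≤ j → co d j = 0}
  zero_mem' := by intro j _; rfl
  add_mem' := by
    intro a b ha hb j hj
    rw [co_add, ha j hj, hb j hj, add_zero]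
  neg_mem' := by
    intro a ha j hj
    rw [co_neg, ha j hj, neg_zero]

lemma mem_Dl {i : ℕ} {d : Lam} : d ∈ Dl i ↔ ∀ j, i ≤ j → co d j = 0 := Iff.rfl

lemma ee_pos (i : ℕ) : 0 < ee i := by
  rw [pos_iff]
  refine ⟨i, ?_, ?_⟩
  · intro j hj; rw [co_ee, if_neg (ne_of_lt hj)]
  · rw [co_ee, if_pos rfl]; norm_num

lemma ee_not_mem (i : ℕ) : ee i ∉ Dl i := by
  intro h
  have := h i le_rfl
  rw [co_ee, if_pos rfl] at this
  norm_num at this

lemma Dl_two (i : ℕ) (l : Lam) (h : (2 : ℕ) • l ∈ Dl i) : l ∈ Dl i := by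
  intro j hj
  have := h j hj
  rw [co_nsmul] at this
  push_cast at this
  omega

lemma Dl_F0 (i : ℕ) : ∀ γ ∈ Dl i, 0 < ee i + γ := by
  intro γ hγ
  rw [pos_iff]
  refine ⟨i, ?_, ?_⟩
  · intro j hj; rw [co_add, co_ee, if_neg (ne_of_lt hj), hγ j hj.le, add_zero]
  · rw [co_add, co_ee, if_pos rfl, hγ i le_rfl]; norm_num

/-- leading index of a positive element outside `Dl i`. -/
lemma exists_lead {i : ℕ} {d : Lam} (hpos : 0 < d) (hd : d ∉ Dl i) :
    ∃ k, i ≤ k ∧ (∀ j, k < j → co d j = 0) ∧ 0 < co d k := by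
  obtain ⟨k, h1, h2⟩ := pos_iff.1 hpos
  refine ⟨k, ?_, h1, h2⟩
  by_contra hk
  rw [not_le] at hk
  apply hd
  intro j hj
  exact h1 j (lt_of_lt_of_le hk hj)

lemma Dl_F1 (i : ℕ) : ∀ δ : Lam, 0 < δ → δ ∉ Dl i →
    δ - ee i ∈ Dl i ∨ (0 < δ - ee i ∧ δ - ee i ∉ Dl i) := by
  intro δ hpos hδ
  by_cases hmem : δ - ee i ∈ Dl i
  · exact Or.inl hmem
  · right
    refine ⟨?_, hmem⟩
    obtain ⟨k, hik, h1, h2⟩ := exists_lead hpos hδ
    rw [pos_iff]
    rcases hik.lt_or_eq with hlt | rfl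
    · refine ⟨k, ?_, ?_⟩
      · intro j hj
        rw [co_sub, h1 j hj, co_ee, if_neg (ne_of_lt (hlt.trans hj)), sub_zero]
      · rw [co_sub, co_ee, if_neg (ne_of_lt hlt), sub_zero]; exact h2
    · refine ⟨i, ?_, ?_⟩
      · intro j hj
        rw [co_sub, h1 j hj, co_ee, if_neg (ne_of_lt hj), sub_zero]
      · rw [co_sub, co_ee, if_pos rfl]
        by_contra hneg
        apply hmem
        intro j hj
        rcases hj.lt_or_eq with hj | rfl
        · rw [co_sub, h1 j hj, co_ee, if_neg (ne_of_lt hj), sub_zero]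
        · rw [co_sub, co_ee, if_pos rfl]; omega

lemma Dl_F2 (i : ℕ) : ∀ a b : Lam, 0 < a → a ∉ Dl i → 0 < b → b ∉ Dl i → a + b - ee i ∉ Dl i := by
  intro a b ha ha' hb hb' h
  obtain ⟨k, hik, h1, h2⟩ := exists_lead ha ha'
  obtain ⟨l, hil, h3, h4⟩ := exists_lead hb hb'
  rcases lt_trichotomy k l with hkl | rfl | hkl
  · have := h l hil
    rw [co_sub, co_add, h1 l hkl, co_ee, if_neg (ne_of_lt (lt_of_le_of_lt hik hkl))] at this
    omega
  · have := h k hik
    rw [co_sub, co_add, co_ee] at this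
    split_ifs at this <;> omega
  · have := h k hik
    rw [co_sub, co_add, h3 k hkl, co_ee, if_neg (ne_of_lt (lt_of_le_of_lt hil hkl))] at this
    omega

lemma Dl_succ (i : ℕ) : ∀ δ : Lam, δ ∈ Dl (i + 1) ↔ ∃ n : ℤ, δ - n • ee i ∈ Dl i := by
  intro δ
  constructor
  · intro h
    refine ⟨co δ i, ?_⟩
    intro j hj
    rw [co_sub, co_zsmul, co_ee]
    rcases hj.lt_or_eq with hj | rfl
    · rw [h j hj, if_neg (ne_of_lt hj)]; ring
    · rw [if_pos rfl]; ring
  · rintro ⟨n, hn⟩ j hj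
    have := hn j (by omega)
    rw [co_sub, co_zsmul, co_ee, if_neg (by omega)] at this
    omega

lemma ee_mem_succ (i : ℕ) : ee i ∈ Dl (i + 1) := by
  rw [Dl_succ]; exact ⟨1, by rw [one_smul, sub_self]; exact (Dl i).zero_mem⟩

lemma Dl_conv (i : ℕ) : ∀ a b δ : Lam, a ∈ Dl i → b ∈ Dl i → a ≤ δ → δ ≤ b → δ ∈ Dl i := by
  intro a b δ ha hb h1 h2
  by_contra hδ
  rcases lt_trichotomy δ 0 with hneg | hzero | hpos
  · have hpos' : 0 < -δ := neg_pos.2 hneg
    have hδ' : -δ ∉ Dl i := by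
      intro h; apply hδ; have := (Dl i).neg_mem h; rwa [neg_neg] at this
    obtain ⟨k, hik, h3, h4⟩ := exists_lead hpos' hδ'
    have : 0 < a - δ := by
      rw [pos_iff]
      refine ⟨k, ?_, ?_⟩
      · intro j hj
        have h5 := h3 j hj
        rw [co_neg] at h5
        rw [co_sub, ha j (by omega)]; omega
      · rw [co_sub, ha k hik]; rw [co_neg] at h4; omega
    exact absurd h1 (not_le.2 (sub_pos.1 this))
  · apply hδ; rw [hzero]; exact (Dl i).zero_mem
  · obtain ⟨k, hik, h3, h4⟩ := exists_lead hpos hδ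
    have : 0 < δ - b := by
      rw [pos_iff]
      refine ⟨k, ?_, ?_⟩
      · intro j hj
        rw [co_sub, hb j (by omega), h3 j hj, sub_zero]
      · rw [co_sub, hb k hik]; omega
    exact absurd h2 (not_le.2 (sub_pos.1 this))

lemma GR_le_succ (i : ℕ) : GR (Dl i) ≤ GR (Dl (i + 1)) :=
  GR_mono (Dl_two i) (Dl_two (i + 1)) (ee_not_mem i) (Dl_F0 i) (Dl_F1 i) (Dl_F2 i) (Dl_succ i)

lemma GR_ne_succ (i : ℕ) : GR (Dl (i + 1)) ≠ GR (Dl i) := by
  intro h
  have h1 : cs (ee i) ∈ GR (Dl (i + 1)) := cs_mem (ee_mem_succ i) (Dl_conv (i + 1))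
  rw [h] at h1
  exact cs_not_mem (Dl_two i) (ee_not_mem i) (ee_pos i) h1

lemma GR_ne_top (i : ℕ) : GR (Dl i) ≠ ⊤ := by
  intro h
  apply GR_ne_succ i
  rw [h, eq_top_iff, ← h]
  exact GR_le_succ i

/-- Every closed proper overgroup of `G0` is contained in some `GR (Dl i)`. -/
lemma exists_le_GR {H : Subgroup (Equiv.Perm (Option (Lam →₀ ℤ)))} (hH : G0 Lam ≤ H)
    (hclosed : ∀ σ : Equiv.Perm (Option (Lam →₀ ℤ)),
      (∀ A : Finset (Option (Lam →₀ ℤ)), ∃ g ∈ H, ∀ a ∈ A, g a = σ a) → σ ∈ H)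
    (hne : H ≠ ⊤) : ∃ i, H ≤ GR (Dl i) := by
  classical
  have hsw := hasSwaps_G0.mono hH
  -- not all distances are good
  have h1 : ¬ ∀ l : Lam, 0 < l → DD H l := by
    intro h
    exact hne (eq_top_of_all_pairs dir_surjective hsw hclosed (all_pairs_of_DD hH h))
  have h2 : ∃ i, ¬ DD H (ee i) := by
    by_contra h
    push Not at h
    apply h1
    intro l hl
    obtain ⟨k, hk1, hk2⟩ := pos_iff.1 hl
    apply DD_convex hH hl _ (h (k + 1))
    rw [← sub_pos, pos_iff]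
    refine ⟨k + 1, ?_, ?_⟩
    · intro j hj
      rw [co_sub, hk1 j (by omega), co_ee, if_neg (by omega), sub_zero]
    · rw [co_sub, hk1 (k + 1) (by omega), co_ee, if_pos rfl]; norm_num
  set i := Nat.find h2 with hi
  have hi1 : ¬ DD H (ee i) := Nat.find_spec h2
  have hi2 : ∀ j, j < i → DD H (ee j) := by
    intro j hj
    have := Nat.find_min h2 hj
    rwa [not_not] at this
  refine ⟨i, le_GR hH (Dl_two i) ?_⟩
  intro l hl
  constructor
  · intro hmem
    obtain ⟨k, hk1, hk2⟩ := pos_iff.1 hl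
    have hki : k < i := by
      by_contra hk
      rw [not_lt] at hk
      rw [hmem k hk] at hk2
      exact lt_irrefl _ hk2
    -- multiples of `ee k`
    have hmul : ∀ n : ℕ, DD H ((n + 1) • ee k) := by
      intro n
      induction n with
      | zero => rw [zero_add, one_smul]; exact hi2 k hki
      | succ n ih =>
        rw [add_smul, one_smul]
        apply DD_add hH _ (ee_pos k) ih (hi2 k hki)
        exact nsmul_pos (ee_pos k) (by omega)
    obtain ⟨n, hn⟩ : ∃ n : ℕ, co l k = n := ⟨(co l k).toNat, by omega⟩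
    apply DD_convex hH hl _ (hmul n)
    rw [← sub_pos, pos_iff]
    refine ⟨k, ?_, ?_⟩
    · intro j hj
      rw [co_sub, hk1 j hj, co_nsmul, co_ee, if_neg (by omega)]; ring
    · rw [co_sub, co_nsmul, co_ee, if_pos rfl, hn]; push_cast; omega
  · intro hDD
    by_contra hmem
    obtain ⟨k, hik, h3, h4⟩ := exists_lead hl hmem
    apply hi1
    apply DD_convex hH (ee_pos i) _ (DD_add hH hl hl hDD hDD)
    rw [← sub_pos, pos_iff]
    refine ⟨k, ?_, ?_⟩
    · intro j hj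
      rw [co_sub, co_add, h3 j hj, co_ee, if_neg (by omega)]; ring
    · rw [co_sub, co_add, co_ee]
      split_ifs <;> omega

/-- The counterexample. -/
theorem main : ¬ (∀ (M : Type) [Countable M] (G : Subgroup (Equiv.Perm M)),
      (∀ σ : Equiv.Perm M,
        (∀ A : Finset M, ∃ g ∈ G, ∀ a ∈ A, g a = σ a) → σ ∈ G) →
      G ≠ ⊤ →
      ∃ F : Subgroup (Equiv.Perm M),
        (∀ σ : Equiv.Perm M,
          (∀ A : Finset M, ∃ g ∈ F, ∀ a ∈ A, g a = σ a) → σ ∈ F) ∧
        G ≤ F ∧ F ≠ ⊤ ∧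
        ∀ F' : Subgroup (Equiv.Perm M),
          (∀ σ : Equiv.Perm M,
            (∀ A : Finset M, ∃ g ∈ F', ∀ a ∈ A, g a = σ a) → σ ∈ F') →
          F ≤ F' → F' = F ∨ F' = ⊤) := by
  intro h
  have hG0 : G0 Lam ≠ ⊤ := by
    intro h'
    apply GR_ne_top 0
    rw [eq_top_iff, ← h']
    exact G0_le_GR _
  obtain ⟨F, hFc, hGF, hFne, hmax⟩ := h (Option (Lam →₀ ℤ)) (G0 Lam) G0_closed hG0
  obtain ⟨i, hi⟩ := exists_le_GR hGF hFc hFne
  have h1 := (hmax (GR (Dl i)) (GR_closed _) hi).resolve_right (GR_ne_top i)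
  have h2 := (hmax (GR (Dl (i + 1))) (GR_closed _) (hi.trans (GR_le_succ i))).resolve_right
    (GR_ne_top (i + 1))
  exact GR_ne_succ i (h2.trans h1.symm)

end Pool.Agent.MP_6aa20f_lc
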